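import Mathlib

/-! Automatic presentations of the natural numbers with successor, compressibility rate. -/

namespace Pool.Agent.Lib57.FA

/-- The convolution of two words: the shorter one is padded (with `none`) and the two words are
read in parallel. -/
def conv {A : Type} (u v : List A) : List (Option A × Option A) :=
  (List.range (max u.length v.length)).map fun i => (u[i]?, v[i]?)

/-- A binary relation on words is synchronously recognisable if the set of the convolutions of
its pairs is a regular language. -/
def SyncRec {A : Type} (R : List A → List A → Prop) : Prop :=
  Language.IsRegular ({z | ∃ u v, R u v ∧ z = conv u v} : Language (Option A × Option A))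

/-- An FA-presentation, over the alphabet `A`, of the structure `(ℕ; S)` where `S` is the
successor relation `{(m, m + 1)}`: a surjection `ψ : L → ℕ` from a regular language `L` such that
equality and the successor relation pull back to synchronously recognisable relations. -/
structure FAPres (A : Type) where
  L : Language A
  ψ : List A → ℕ
  regular : L.IsRegular
  surj : ∀ n : ℕ, ∃ w ∈ L, ψ w = n
  eq_rec : SyncRec fun u v => u ∈ L ∧ v ∈ L ∧ ψ u = ψ v
  succ_rec : SyncRec fun u v => u ∈ L ∧ v ∈ L ∧ ψ v = ψ u + 1

/-- the length of a shortest normal form of `x` -/
noncomputable def FAPres.minLen {A : Type} (P : FAPres A) (x : ℕ) : ℕ :=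
  sInf {k | ∃ v ∈ P.L, P.ψ v = x ∧ v.length = k}

/-- The compressibility rate of `P` relative to `P₀` at `n`: the largest length of a shortest
`P₀`-normal form among the elements having a `P`-normal form of length at most `n` (and `0` if
there are none). -/
noncomputable def rate {A A₀ : Type} (P : FAPres A) (P₀ : FAPres A₀) (n : ℕ) : ℕ :=
  sSup {k | ∃ w ∈ P.L, w.length ≤ n ∧ k = P₀.minLen (P.ψ w)}

/-- the tower function -/
def T : ℕ → ℕ
  | 0 => 1
  | n + 1 => 2 ^ T n

end Pool.Agent.Lib57.FA
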