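import Mathlib
import Pool.Agent.Lib_helper57.FA.Defs

/-! Recognisable predicates on tuples of words: closure under first-order operations. -/

namespace Pool.Agent.Lib57.FA

open Function

/-- Types whose elements are read as sequences of columns. -/
class Tracked (X : Type) (C : outParam Type) where
  finC : Finite C
  blank : C
  col : X → ℕ → C
  len : X → ℕ
  col_of_le : ∀ x n, len x ≤ n → col x n = blank
  col_ne : ∀ x n, n < len x → col x n ≠ blank
  ext : ∀ x y, (∀ n, col x n = col y n) → x = y

export Tracked (blank col len)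

instance trackedList {A : Type} [Finite A] : Tracked (List A) (Option A) where
  finC := inferInstance
  blank := none
  col u n := u[n]?
  len u := u.length
  col_of_le u n h := List.getElem?_eq_none h
  col_ne u n h := by rw [List.getElem?_eq_getElem h]; simp
  ext u v h := List.ext_getElem? h

instance trackedNat : Tracked ℕ Bool where
  finC := inferInstance
  blank := false
  col n i := decide (i < n)
  len n := n
  col_of_le n i h := by simpa using h
  col_ne n i h := by simpa using h
  ext m n h := by
    have h1 := h m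
    have h2 := h n
    simp only [lt_self_iff_false, decide_false] at h1 h2
    simp at h1 h2
    omega

instance trackedProd {X Y C D : Type} [Tracked X C] [Tracked Y D] : Tracked (X × Y) (C × D) where
  finC := by
    have := Tracked.finC X (C := C)
    have := Tracked.finC Y (C := D)
    infer_instance
  blank := (blank X, blank Y)
  col p n := (col p.1 n, col p.2 n)
  len p := max (len p.1) (len p.2)
  col_of_le p n h := by
    rw [Tracked.col_of_le p.1 n (le_trans (le_max_left _ _) h),
      Tracked.col_of_le p.2 n (le_trans (le_max_right _ _) h)]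
  col_ne p n h := by
    rcases lt_max_iff.1 h with h | h
    · exact fun he => Tracked.col_ne p.1 n h (congrArg Prod.fst he)
    · exact fun he => Tracked.col_ne p.2 n h (congrArg Prod.snd he)
  ext p q h := by
    apply Prod.ext
    · exact Tracked.ext _ _ fun n => congrArg Prod.fst (h n)
    · exact Tracked.ext _ _ fun n => congrArg Prod.snd (h n)

/-- the run of an automaton on a sequence of columns -/
def run {Q C : Type} (δ : Q → C → Q) (q0 : Q) (s : ℕ → C) : ℕ → Q
  | 0 => q0
  | n + 1 => δ (run δ q0 s n) (s n)

theorem run_congr {Q C : Type} (δ : Q → C → Q) (q0 : Q) {s s' : ℕ → C} {N : ℕ}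
    (h : ∀ n, n < N → s n = s' n) : run δ q0 s N = run δ q0 s' N := by
  induction N with
  | zero => rfl
  | succ N ih =>
    rw [run, run, ih fun n hn => h n (by omega), h N (by omega)]

theorem run_add {Q C : Type} (δ : Q → C → Q) (q0 : Q) (s : ℕ → C) (N k : ℕ) :
    run δ q0 s (N + k) = run δ (run δ q0 s N) (fun n => s (N + n)) k := by
  induction k with
  | zero => rfl
  | succ k ih => rw [← Nat.add_assoc, run, run, ih]

/-- recognisable predicates -/
def Rec {X C : Type} [Tracked X C] (P : X → Prop) : Prop :=
  ∃ (Q : Type) (_ : Finite Q) (q0 : Q) (δ : Q → C → Q) (acc : Q → Prop),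
    ∀ x N, len x ≤ N → (acc (run δ q0 (col x) N) ↔ P x)

section

variable {X Y C D : Type} [Tracked X C] [Tracked Y D]

theorem Rec.congr {P P' : X → Prop} (h : Rec P) (hP : ∀ x, P x ↔ P' x) : Rec P' := by
  have : P = P' := by funext x; exact propext (hP x)
  rw [← this]
  exact h

theorem Rec.not {P : X → Prop} (h : Rec P) : Rec fun x => ¬ P x := by
  obtain ⟨Q, fQ, q0, δ, acc, h⟩ := h
  exact ⟨Q, fQ, q0, δ, fun q => ¬ acc q, fun x N hN => not_congr (h x N hN)⟩

theorem run_prod {Q Q' C : Type} (δ : Q → C → Q) (δ' : Q' → C → Q') (q0 : Q) (q0' : Q')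
    (s : ℕ → C) (N : ℕ) : run (fun (q : Q × Q') c => (δ q.1 c, δ' q.2 c)) (q0, q0') s N =
      (run δ q0 s N, run δ' q0' s N) := by
  induction N with
  | zero => rfl
  | succ N ih => rw [run, ih, run, run]

theorem Rec.and {P P' : X → Prop} (h : Rec P) (h' : Rec P') : Rec fun x => P x ∧ P' x := by
  obtain ⟨Q, fQ, q0, δ, acc, h⟩ := h
  obtain ⟨Q', fQ', q0', δ', acc', h'⟩ := h'
  refine ⟨Q × Q', inferInstance, (q0, q0'), fun q c => (δ q.1 c, δ' q.2 c),
    fun q => acc q.1 ∧ acc' q.2, fun x N hN => ?_⟩
  rw [run_prod]
  exact and_congr (h x N hN) (h' x N hN)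

theorem Rec.or {P P' : X → Prop} (h : Rec P) (h' : Rec P') : Rec fun x => P x ∨ P' x :=
  (h.not.and h'.not).not.congr fun x => by tauto

theorem Rec.imp {P P' : X → Prop} (h : Rec P) (h' : Rec P') : Rec fun x => P x → P' x :=
  (h.not.or h').congr fun x => by tauto

theorem Rec.iff {P P' : X → Prop} (h : Rec P) (h' : Rec P') : Rec fun x => (P x ↔ P' x) :=
  ((h.imp h').and (h'.imp h)).congr fun x => by tauto

theorem Rec.const (p : Prop) : Rec fun _ : X => p :=
  ⟨Unit, inferInstance, (), fun _ _ => (), fun _ => p, fun _ _ _ => Iff.rfl⟩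

/-- columnwise maps -/
class CW (f : X → Y) : Prop where
  cw : ∃ g : C → D, (∀ x n, col (f x) n = g (col x n)) ∧ ∀ x, len (f x) ≤ len x

theorem run_map {Q C D : Type} (δ : Q → D → Q) (g : C → D) (q0 : Q) (s : ℕ → C) (N : ℕ) :
    run (fun q c => δ q (g c)) q0 s N = run δ q0 (fun n => g (s n)) N := by
  induction N with
  | zero => rfl
  | succ N ih => rw [run, ih, run]

theorem Rec.app {P : Y → Prop} (h : Rec P) (f : X → Y) [hf : CW f] : Rec fun x => P (f x) := by
  obtain ⟨Q, fQ, q0, δ, acc, h⟩ := h
  obtain ⟨g, hg, hl⟩ := hf.cw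
  refine ⟨Q, fQ, q0, fun q c => δ q (g c), acc, fun x N hN => ?_⟩
  show acc _ ↔ P (f x)
  rw [run_map, ← h (f x) N ((hl x).trans hN)]
  have : (fun n => g (col x n)) = col (f x) := by funext n; exact (hg x n).symm
  rw [this]

instance cw_id : CW (fun x : X => x) := ⟨fun c => c, fun _ _ => rfl, fun _ => le_rfl⟩

instance cw_pair {Z E : Type} [Tracked Z E] {f : X → Y} {g : X → Z} [hf : CW f] [hg : CW g] :
    CW (fun x => (f x, g x)) := by
  obtain ⟨a, ha, ha'⟩ := hf.cw
  obtain ⟨b, hb, hb'⟩ := hg.cw
  refine ⟨fun c => (a c, b c), fun x n => ?_, fun x => ?_⟩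
  · exact Prod.ext (ha x n) (hb x n)
  · exact max_le (ha' x) (hb' x)

instance cw_fst {Z E : Type} [Tracked Z E] {f : X → Y × Z} [hf : CW f] :
    CW (fun x => (f x).1) := by
  obtain ⟨a, ha, ha'⟩ := hf.cw
  refine ⟨fun c => (a c).1, fun x n => ?_, fun x => ?_⟩
  · exact congrArg Prod.fst (ha x n)
  · exact (le_max_left _ _).trans (ha' x)

instance cw_snd {Z E : Type} [Tracked Z E] {f : X → Y × Z} [hf : CW f] :
    CW (fun x => (f x).2) := by
  obtain ⟨a, ha, ha'⟩ := hf.cw
  refine ⟨fun c => (a c).2, fun x n => ?_, fun x => ?_⟩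
  · exact congrArg Prod.snd (ha x n)
  · exact (le_max_right _ _).trans (ha' x)

example : CW (fun x : (ℕ × ℕ) × List Bool => (x.1.2, x.2, x.1.1)) := inferInstance

/-! ### quantifiers -/

theorem rec_ex_list {A : Type} [Finite A] {P : X × List A → Prop} (h : Rec P) :
    Rec fun x => ∃ u, P (x, u) := by
  classical
  obtain ⟨Q, fQ, q0, δ, acc, h⟩ := h
  let δ' : Set (Q × Bool) → C → Set (Q × Bool) := fun S c =>
    {p | (∃ q e, (q, e) ∈ S ∧ p = (δ q (c, none), true)) ∨
      (∃ q a, (q, false) ∈ S ∧ p = (δ q (c, some a), false))}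
  have key : ∀ (x : X) (N : ℕ), run δ' {(q0, false)} (col x) N =
      {p | ∃ u : List A, u.length ≤ N ∧
        p = (run δ q0 (col (x, u)) N, decide (u.length < N))} := by
    intro x N
    induction N with
    | zero =>
      ext p
      simp only [run, Set.mem_singleton_iff, Set.mem_ofPred_eq]
      constructor
      · intro hp
        exact ⟨[], by simp, by simpa using hp⟩
      · rintro ⟨u, hu, hp⟩
        simpa using hp
    | succ N ih =>
      rw [run, ih]
      ext p
      simp only [δ', Set.mem_ofPred_eq]
      constructor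
      · rintro (⟨q, e, ⟨u, hu, hp⟩, rfl⟩ | ⟨q, a, ⟨u, hu, hp⟩, rfl⟩)
        · refine ⟨u, by omega, ?_⟩
          rw [Prod.mk.injEq] at hp
          rw [run, hp.1]
          have h1 : col (x, u) N = (col x N, none) := by
            show (col x N, u[N]?) = _
            rw [List.getElem?_eq_none hu]
          rw [h1]
          have h2 : u.length < N + 1 := by omega
          simp [h2]
        · rw [Prod.mk.injEq] at hp
          have hN : u.length = N := by
            have := hp.2
            rw [eq_comm, decide_eq_false_iff_not] at this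
            omega
          refine ⟨u ++ [a], by simp [hN], ?_⟩
          have h1 : col (x, u ++ [a]) N = (col x N, some a) := by
            show (col x N, (u ++ [a])[N]?) = _
            rw [← hN]
            simp
          have h2 : run δ q0 (col (x, u ++ [a])) N = run δ q0 (col (x, u)) N := by
            apply run_congr
            intro n hn
            show (col x n, (u ++ [a])[n]?) = (col x n, u[n]?)
            rw [List.getElem?_append_left (by omega)]
          rw [run, h1, h2, hp.1]
          simp [hN]
      · rintro ⟨u, hu, rfl⟩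
        rcases Nat.lt_or_ge N u.length with h1 | h1
        · right
          have hlen : u.length = N + 1 := by omega
          obtain ⟨u', a, rfl⟩ : ∃ u' a, u = u' ++ [a] := by
            rcases List.eq_nil_or_concat u with h2 | ⟨u', a, h2⟩
            · rw [h2] at hlen; simp at hlen
            · exact ⟨u', a, by rw [h2]; simp⟩
          have hN : u'.length = N := by simpa using hlen
          have h3 : col (x, u' ++ [a]) N = (col x N, some a) := by
            show (col x N, (u' ++ [a])[N]?) = _
            rw [← hN]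
            simp
          have h4 : run δ q0 (col (x, u' ++ [a])) N = run δ q0 (col (x, u')) N := by
            apply run_congr
            intro n hn
            show (col x n, (u' ++ [a])[n]?) = (col x n, u'[n]?)
            rw [List.getElem?_append_left (by omega)]
          refine ⟨run δ q0 (col (x, u')) N, a, ⟨u', by omega, ?_⟩, ?_⟩
          · simp [hN]
          · rw [run, h3, h4]
            simp [hN]
        · left
          refine ⟨_, _, ⟨u, h1, rfl⟩, ?_⟩
          have h3 : col (x, u) N = (col x N, none) := by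
            show (col x N, u[N]?) = _
            rw [List.getElem?_eq_none h1]
          rw [run, h3]
          have h2 : u.length < N + 1 := by omega
          simp [h2]
  refine ⟨Set (Q × Bool), inferInstance, {(q0, false)}, δ',
    fun S => ∃ k, ∃ p ∈ run δ' S (fun _ => blank X) k, acc p.1, fun x N hN => ?_⟩
  have h1 : ∀ k, run δ' (run δ' {(q0, false)} (col x) N) (fun _ => blank X) k =
      run δ' {(q0, false)} (col x) (N + k) := by
    intro k
    rw [run_add]
    apply run_congr
    intro n _
    rw [Tracked.col_of_le x (N + n) (by omega)]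
  constructor
  · rintro ⟨k, p, hp, hacc⟩
    rw [h1, key] at hp
    obtain ⟨u, hu, rfl⟩ := hp
    exact ⟨u, (h (x, u) (N + k) (max_le (show len x ≤ N + k by omega) hu)).1 hacc⟩
  · rintro ⟨u, hu⟩
    refine ⟨u.length, (run δ q0 (col (x, u)) (N + u.length), decide (u.length < N + u.length)),
      ?_, ?_⟩
    · rw [h1, key]
      exact ⟨u, by omega, rfl⟩
    · exact (h (x, u) (N + u.length) (max_le (show len x ≤ N + u.length by omega) (Nat.le_add_left _ _))).2 hu

end

/-- types over which one may quantify -/
class Quant (Y : Type) {D : Type} [Tracked Y D] : Prop where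
  ex : ∀ {X C : Type} [Tracked X C] {P : X × Y → Prop}, Rec P → Rec fun x => ∃ y, P (x, y)

instance quantList {A : Type} [Finite A] : Quant (List A) := ⟨rec_ex_list⟩

instance cw_length {X C : Type} [Tracked X C] :
    CW (fun p : X × List Unit => ((p.1, p.2.length) : X × ℕ)) := by
  refine ⟨fun c => (c.1, c.2.isSome), fun x n => ?_, fun x => le_rfl⟩
  apply Prod.ext
  · rfl
  · show decide (n < x.2.length) = (x.2[n]?).isSome
    rcases Nat.lt_or_ge n x.2.length with h | h
    · rw [List.getElem?_eq_getElem h]; simp [h]
    · rw [List.getElem?_eq_none h]; simp [h]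

instance quantNat : Quant ℕ := ⟨by
  intro X C _ P h
  have h1 : Rec fun p : X × List Unit => P (p.1, p.2.length) :=
    h.app (fun p : X × List Unit => ((p.1, p.2.length) : X × ℕ))
  refine (Quant.ex (P := fun p : X × List Unit => P (p.1, p.2.length)) h1).congr fun x => ?_
  constructor
  · rintro ⟨u, hu⟩; exact ⟨_, hu⟩
  · rintro ⟨n, hn⟩; exact ⟨List.replicate n (), by simpa using hn⟩⟩

instance quantProd {Y Z D E : Type} [Tracked Y D] [Tracked Z E] [Quant Y] [Quant Z] :
    Quant (Y × Z) := ⟨by
  intro X C _ P h
  have h1 : Rec fun p : (X × Y) × Z => P (p.1.1, p.1.2, p.2) :=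
    h.app (fun p : (X × Y) × Z => (p.1.1, p.1.2, p.2))
  have h2 : Rec fun p : X × Y => ∃ z, P (p.1, p.2, z) :=
    Quant.ex (P := fun p : (X × Y) × Z => P (p.1.1, p.1.2, p.2)) h1
  refine (Quant.ex (P := fun p : X × Y => ∃ z, P (p.1, p.2, z)) h2).congr fun x => ?_
  constructor
  · rintro ⟨y, z, h⟩; exact ⟨(y, z), h⟩
  · rintro ⟨⟨y, z⟩, h⟩; exact ⟨y, z, h⟩⟩

section

variable {X Y C D : Type} [Tracked X C] [Tracked Y D] [Quant Y]

theorem Rec.ex {P : X → Y → Prop} (h : Rec fun p : X × Y => P p.1 p.2) :
    Rec fun x => ∃ y, P x y := Quant.ex (P := fun p : X × Y => P p.1 p.2) h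

theorem Rec.all {P : X → Y → Prop} (h : Rec fun p : X × Y => P p.1 p.2) :
    Rec fun x => ∀ y, P x y :=
  (Rec.ex (P := fun x y => ¬ P x y) h.not).not.congr fun x => by push Not; rfl

end

end Pool.Agent.Lib57.FA
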