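import Mathlib
import Pool.Agent.Lib_helper57.FA.Rec

/-! Basic recognisable relations; conversion from and to regular languages. -/

namespace Pool.Agent.Lib57.FA

open Function

section

variable {X Y C D : Type} [Tracked X C] [Tracked Y D]

theorem rec_all_cols (R : C → Prop) : Rec fun x : X => ∀ n, R (col x n) := by
  classical
  refine ⟨Prop, inferInstance, True, fun q c => q ∧ R c, fun q => q ∧ R (blank X),
    fun x N hN => ?_⟩
  have key : ∀ N, run (fun q c => q ∧ R c) True (col x) N ↔ ∀ n, n < N → R (col x n) := by
    intro N
    induction N with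
    | zero => simp [run]
    | succ N ih =>
      rw [run, ih]
      constructor
      · rintro ⟨h1, h2⟩ n hn
        rcases Nat.lt_or_ge n N with h | h
        · exact h1 n h
        · rw [show n = N by omega]; exact h2
      · intro h
        exact ⟨fun n hn => h n (by omega), h N (by omega)⟩
  show run _ _ _ _ ∧ R (blank X) ↔ _
  rw [key]
  constructor
  · rintro ⟨h1, h2⟩ n
    rcases Nat.lt_or_ge n N with h | h
    · exact h1 n h
    · rw [Tracked.col_of_le x n (by omega)]; exact h2
  · intro h
    refine ⟨fun n _ => h n, ?_⟩
    have := h (len x)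
    rwa [Tracked.col_of_le x _ le_rfl] at this

theorem rec_eq : Rec fun p : X × X => p.1 = p.2 :=
  (rec_all_cols (X := X × X) (fun c => c.1 = c.2)).congr fun p =>
    ⟨fun h => Tracked.ext _ _ h, fun h n => by show col p.1 n = col p.2 n; rw [h]⟩

theorem rec_len_le : Rec fun p : X × Y => len p.1 ≤ len p.2 :=
  (rec_all_cols (X := X × Y) (fun c => c.2 = blank Y → c.1 = blank X)).congr fun p => by
    constructor
    · intro h
      by_contra hlt
      have h1 := h (len p.2) (Tracked.col_of_le p.2 _ le_rfl)
      exact Tracked.col_ne p.1 (len p.2) (by omega) h1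
    · intro h n hn
      apply Tracked.col_of_le
      by_contra hlt
      exact Tracked.col_ne p.2 n (by omega) hn

theorem Rec.eq_app {Z E : Type} [Tracked Z E] (f g : Z → X) [CW f] [CW g] :
    Rec fun z => f z = g z := rec_eq.app (fun z => (f z, g z))

theorem Rec.len_le_app {Z E : Type} [Tracked Z E] (f : Z → X) (g : Z → Y) [CW f] [CW g] :
    Rec fun z => len (f z) ≤ len (g z) := rec_len_le.app (fun z => (f z, g z))

theorem Rec.len_lt_app {Z E : Type} [Tracked Z E] (f : Z → X) (g : Z → Y) [CW f] [CW g] :
    Rec fun z => len (f z) < len (g z) :=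
  (Rec.len_le_app g f).not.congr fun z => by omega

theorem Rec.nat_lt_app {Z E : Type} [Tracked Z E] (f g : Z → ℕ) [CW f] [CW g] :
    Rec fun z => f z < g z := Rec.len_lt_app f g

theorem rec_succ : Rec fun p : ℕ × ℕ => p.2 = p.1 + 1 := by
  have h : Rec fun p : ℕ × ℕ => ¬ ∃ k, p.1 < k ∧ k < p.2 :=
    (Rec.ex (P := fun (p : ℕ × ℕ) (k : ℕ) => p.1 < k ∧ k < p.2)
      ((Rec.nat_lt_app (fun q : (ℕ × ℕ) × ℕ => q.1.1) (fun q => q.2)).and
        (Rec.nat_lt_app (fun q : (ℕ × ℕ) × ℕ => q.2) (fun q => q.1.2)))).not
  refine ((Rec.nat_lt_app (fun q : ℕ × ℕ => q.1) (fun q => q.2)).and h).congr fun p => ?_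
  constructor
  · rintro ⟨h1, h2⟩
    by_contra h3
    exact h2 ⟨p.1 + 1, by omega, by omega⟩
  · intro h1
    refine ⟨by omega, ?_⟩
    rintro ⟨k, h2, h3⟩
    omega

theorem Rec.succ_app {Z E : Type} [Tracked Z E] (f g : Z → ℕ) [CW f] [CW g] :
    Rec fun z => g z = f z + 1 := rec_succ.app (fun z => (f z, g z))

theorem Rec.len_zero : Rec fun x : X => len x = 0 :=
  (rec_all_cols (X := X) (fun c => c = blank X)).congr fun x => by
    constructor
    · intro h
      by_contra h0
      exact Tracked.col_ne x 0 (by omega) (h 0)
    · intro h n
      exact Tracked.col_of_le x n (by omega)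

/-! ### rank -/

variable (X)

/-- digits -/
noncomputable def digit (c : C) : ℕ := by
  classical
  exact if c = blank X then 0 else
    ((@Finite.equivFin C (Tracked.finC X)) c).1 + 1

theorem digit_blank : digit X (blank X) = 0 := by
  unfold digit
  simp

theorem digit_inj : Injective (digit X (C := C)) := by
  classical
  intro c d h
  unfold digit at h
  have := Tracked.finC X (C := C)
  by_cases hc : c = blank X <;> by_cases hd : d = blank X
  · rw [hc, hd]
  · rw [if_pos hc, if_neg hd] at h; omega
  · rw [if_neg hc, if_pos hd] at h; omega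
  · rw [if_neg hc, if_neg hd] at h
    have h1 : ((Finite.equivFin C) c).1 = ((Finite.equivFin C) d).1 := by omega
    exact (Finite.equivFin C).injective (Fin.ext h1)

/-- the base -/
noncomputable def base (C : Type) : ℕ := Nat.card C + 1

theorem digit_lt (c : C) : digit X c < base C := by
  classical
  unfold digit base
  have := Tracked.finC X (C := C)
  split_ifs
  · omega
  · have := ((Finite.equivFin C) c).2
    omega

variable {X}

/-- partial rank -/
noncomputable def rkp (x : X) (N : ℕ) : ℕ := ∑ n ∈ Finset.range N, digit X (col x n) * base C ^ n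

/-- rank -/
noncomputable def rk (x : X) : ℕ := rkp x (len x)

theorem rkp_succ (x : X) (N : ℕ) :
    rkp x (N + 1) = rkp x N + digit X (col x N) * base C ^ N := Finset.sum_range_succ _ _

theorem rkp_lt (x : X) (N : ℕ) : rkp x N < base C ^ N := by
  induction N with
  | zero => simp [rkp]
  | succ N ih =>
    rw [rkp_succ, pow_succ]
    have h1 := digit_lt X (col x N)
    have h2 : (digit X (col x N) + 1) * base C ^ N ≤ base C * base C ^ N :=
      Nat.mul_le_mul_right _ h1
    rw [Nat.add_mul, Nat.one_mul] at h2
    rw [Nat.mul_comm (base C ^ N)]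
    omega

theorem rkp_of_le (x : X) {N : ℕ} (h : len x ≤ N) : rkp x N = rk x := by
  induction N, h using Nat.le_induction with
  | base => rfl
  | succ N hN ih =>
    rw [rkp_succ, ih, Tracked.col_of_le x N hN, digit_blank, Nat.zero_mul, Nat.add_zero]

/-- comparison step -/
theorem rkp_lt_succ (x y : X) (N : ℕ) : rkp x (N + 1) < rkp y (N + 1) ↔
    (digit X (col x N) < digit X (col y N) ∨
      (digit X (col x N) = digit X (col y N) ∧ rkp x N < rkp y N)) := by
  rw [rkp_succ, rkp_succ]
  have h1 := rkp_lt x N
  have h2 := rkp_lt y N
  have key : ∀ a b s t B : ℕ, s < B → a < b → s + a * B < t + b * B := by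
    intro a b s t B h3 h4
    have : (a + 1) * B ≤ b * B := Nat.mul_le_mul_right _ h4
    rw [Nat.add_mul] at this
    omega
  rcases lt_trichotomy (digit X (col x N)) (digit X (col y N)) with h | h | h
  · constructor
    · intro _; exact Or.inl h
    · intro _; exact key _ _ _ _ _ h1 h
  · rw [h]
    constructor
    · intro h3; right; exact ⟨rfl, by omega⟩
    · rintro (h3 | h3)
      · omega
      · omega
  · constructor
    · intro h3
      have := key _ _ (rkp y N) (rkp x N) _ h2 h
      omega
    · rintro (h3 | h3) <;> omega

theorem rk_inj : Injective (rk (X := X)) := by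
  intro x y h
  have key : ∀ N, rkp x N = rkp y N → ∀ n, n < N → col x n = col y n := by
    intro N
    induction N with
    | zero => intro _ n hn; omega
    | succ N ih =>
      intro hN n hn
      have h1 := rkp_lt_succ x y N
      have h2 := rkp_lt_succ y x N
      have h3 : digit X (col x N) = digit X (col y N) := by
        rcases lt_trichotomy (digit X (col x N)) (digit X (col y N)) with h | h | h
        · have := h1.2 (Or.inl h); omega
        · exact h
        · have := h2.2 (Or.inl h); omega
      have h4 : rkp x N = rkp y N := by
        rw [rkp_succ, rkp_succ, h3] at hN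
        omega
      rcases Nat.lt_or_ge n N with h5 | h5
      · exact ih h4 n h5
      · rw [show n = N by omega]
        exact digit_inj X h3
  apply Tracked.ext
  intro n
  have hN : rkp x (max (n + 1) (max (len x) (len y))) =
      rkp y (max (n + 1) (max (len x) (len y))) := by
    rw [rkp_of_le x (by omega), rkp_of_le y (by omega), h]
  exact key _ hN n (by omega)

theorem rec_rk_lt : Rec fun p : X × X => rk p.1 < rk p.2 := by
  classical
  refine ⟨Prop, inferInstance, False,
    fun q c => digit X c.1 < digit X c.2 ∨ (digit X c.1 = digit X c.2 ∧ q), fun q => q,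
    fun p N hN => ?_⟩
  have key : ∀ N, run (fun (q : Prop) (c : C × C) => digit X c.1 < digit X c.2 ∨
      (digit X c.1 = digit X c.2 ∧ q)) False (col p) N ↔ rkp p.1 N < rkp p.2 N := by
    intro N
    induction N with
    | zero => simp [run, rkp]
    | succ N ih =>
      rw [run, ih, rkp_lt_succ]
      rfl
  rw [key, rkp_of_le p.1 ((le_max_left _ _).trans hN), rkp_of_le p.2 ((le_max_right _ _).trans hN)]

theorem Rec.rk_lt_app {Z E : Type} [Tracked Z E] (f g : Z → X) [CW f] [CW g] :
    Rec fun z => rk (f z) < rk (g z) := rec_rk_lt.app (fun z => (f z, g z))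

/-! ### encoding -/

/-- the word of the columns -/
def enc (x : X) : List C := (List.range (len x)).map (col x)

theorem enc_length (x : X) : (enc x).length = len x := by simp [enc]

theorem enc_get (x : X) (n : ℕ) : (enc x)[n]? = if n < len x then some (col x n) else none := by
  unfold enc
  rw [List.getElem?_map]
  split_ifs with h
  · rw [List.getElem?_range h]; rfl
  · rw [List.getElem?_eq_none (by simp; omega)]; rfl

theorem enc_inj : Injective (enc (X := X)) := by
  intro x y h
  have hl : len x = len y := by rw [← enc_length, h, enc_length]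
  apply Tracked.ext
  intro n
  rcases Nat.lt_or_ge n (len x) with h1 | h1
  · have h2 := enc_get x n
    rw [h, enc_get y n, if_pos h1, if_pos (by omega)] at h2
    exact (Option.some.inj h2).symm
  · rw [Tracked.col_of_le x n h1, Tracked.col_of_le y n (by omega)]

/-- predicates of encodings -/
theorem rec_enc [Finite C] : Rec fun p : List C × X => p.1 = enc p.2 := by
  classical
  refine (rec_all_cols (X := List C × X)
    (fun c => c.1 = if c.2 = blank X then none else some c.2)).congr fun p => ?_
  have h1 : ∀ n, (enc p.2)[n]? = if col p.2 n = blank X then none else some (col p.2 n) := by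
    intro n
    rw [enc_get]
    rcases Nat.lt_or_ge n (len p.2) with h | h
    · rw [if_pos h, if_neg (Tracked.col_ne p.2 n h)]
    · rw [if_neg (by omega), if_pos (Tracked.col_of_le p.2 n h)]
  constructor
  · intro h
    apply List.ext_getElem?
    intro n
    rw [h1 n]
    exact h n
  · intro h n
    show (p.1)[n]? = if col p.2 n = blank X then none else some (col p.2 n)
    rw [← h1 n, h]

theorem rec_of_enc [Finite C] [Quant X] {P : X → Prop} (h : Rec P) :
    Rec fun u : List C => ∃ x, u = enc x ∧ P x :=
  Rec.ex (P := fun (u : List C) (x : X) => u = enc x ∧ P x)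
    (rec_enc.and (h.app fun p : List C × X => p.2))

theorem rec_of_enc2 [Finite C] [Quant X] {R : X → X → Prop} (h : Rec fun p : X × X => R p.1 p.2) :
    Rec fun p : List C × List C => ∃ x y, p.1 = enc x ∧ p.2 = enc y ∧ R x y := by
  refine Rec.ex (P := fun (p : List C × List C) (x : X) => ∃ y, p.1 = enc x ∧ p.2 = enc y ∧ R x y)
    (Rec.ex (P := fun (p : (List C × List C) × X) (y : X) =>
      p.1.1 = enc p.2 ∧ p.1.2 = enc y ∧ R p.2 y) ?_)
  exact (rec_enc.app (fun q : ((List C × List C) × X) × X => (q.1.1.1, q.1.2))).and
    ((rec_enc.app (fun q : ((List C × List C) × X) × X => (q.1.1.2, q.2))).and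
      (h.app (fun q : ((List C × List C) × X) × X => (q.1.2, q.2))))

end

/-! ### regular languages -/

section

variable {A : Type} [Finite A]

theorem foldl_eq_run {Q B : Type} (δ : Q → B → Q) (q0 : Q) (z : List B) (s : ℕ → B)
    (h : ∀ n (hn : n < z.length), z[n] = s n) : z.foldl δ q0 = run δ q0 s z.length := by
  induction z using List.reverseRecOn with
  | nil => rfl
  | append_singleton z b ih =>
    rw [List.foldl_append, List.length_append, List.length_singleton, run, ih]
    · have := h z.length (by simp)
      simp only [List.getElem_concat_length] at this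
      rw [List.foldl_cons, List.foldl_nil, this]
    · intro n hn
      have := h n (by simp; omega)
      rw [List.getElem_append_left hn] at this
      exact this

theorem Rec.toRegular {L : Language A} (h : Rec fun u : List A => u ∈ L) : L.IsRegular := by
  obtain ⟨Q, fQ, q0, δ, acc, h⟩ := h
  have : Fintype Q := Fintype.ofFinite Q
  refine ⟨Q, this, ⟨fun q a => δ q (some a), q0, {q | acc q}⟩, ?_⟩
  ext u
  have h1 := h u u.length le_rfl
  have h2 : u.foldl (fun q a => δ q (some a)) q0 = run δ q0 (col u) u.length := by
    have h3 : u.foldl (fun q a => δ q (some a)) q0 =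
        (u.map some).foldl δ q0 := by
      rw [List.foldl_map]
    rw [h3, foldl_eq_run _ _ _ (fun n => u[n]?)]
    · rw [List.length_map]
      rfl
    · intro n hn
      rw [List.getElem_map]
      rw [List.getElem?_eq_getElem (by simpa using hn)]
  rw [← h2] at h1
  exact h1

theorem Rec.ofRegular {L : Language A} (h : L.IsRegular) : Rec fun u : List A => u ∈ L := by
  obtain ⟨Q, fQ, M, rfl⟩ := h
  refine ⟨Q, inferInstance, M.start, fun q c => c.elim q (M.step q), fun q => q ∈ M.accept,
    fun u N hN => ?_⟩
  have h1 : run (fun q (c : Option A) => c.elim q (M.step q)) M.start (col u) u.length =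
      M.eval u := by
    have h3 : M.eval u = (u.map some).foldl (fun q (c : Option A) => c.elim q (M.step q)) M.start
        := by
      rw [List.foldl_map]
      rfl
    rw [h3, foldl_eq_run _ _ _ (fun n => u[n]?)]
    · rw [List.length_map]
      rfl
    · intro n hn
      rw [List.getElem_map]
      rw [List.getElem?_eq_getElem (by simpa using hn)]
  have h2 : ∀ N, u.length ≤ N → run (fun q (c : Option A) => c.elim q (M.step q)) M.start
      (col u) N = M.eval u := by
    intro N hN
    induction N, hN using Nat.le_induction with
    | base => exact h1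
    | succ N hN ih =>
      rw [run, ih]
      have : col u N = none := List.getElem?_eq_none hN
      rw [this]
      rfl
  rw [h2 N hN]
  rfl

omit [Finite A] in
theorem conv_length (u v : List A) : (conv u v).length = max u.length v.length := by simp [conv]

omit [Finite A] in
theorem conv_getElem (u v : List A) (n : ℕ) (hn : n < (conv u v).length) :
    (conv u v)[n] = (u[n]?, v[n]?) := by simp [conv]

omit [Finite A] in
theorem conv_inj {u v u' v' : List A} (h : conv u v = conv u' v') : u = u' ∧ v = v' := by
  have hl : max u.length v.length = max u'.length v'.length := by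
    rw [← conv_length, h, conv_length]
  have key : ∀ n : ℕ, (u[n]?, v[n]?) = (u'[n]?, v'[n]?) := by
    intro n
    rcases Nat.lt_or_ge n (max u.length v.length) with h1 | h1
    · have h2 := conv_getElem u v n (by rw [conv_length]; exact h1)
      rw [← h2, ← conv_getElem u' v' n (by rw [conv_length, ← hl]; exact h1)]
      simp only [h]
    · rw [List.getElem?_eq_none (by omega), List.getElem?_eq_none (by omega),
        List.getElem?_eq_none (by omega), List.getElem?_eq_none (by omega)]
  exact ⟨List.ext_getElem? fun n => congrArg Prod.fst (key n),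
    List.ext_getElem? fun n => congrArg Prod.snd (key n)⟩

theorem Rec.ofSync {R : List A → List A → Prop} (h : SyncRec R) :
    Rec fun p : List A × List A => R p.1 p.2 := by
  classical
  obtain ⟨Q, fQ, M, hM⟩ := h
  refine ⟨Q, inferInstance, M.start, fun q c => if c = (none, none) then q else M.step q c,
    fun q => q ∈ M.accept, fun p N hN => ?_⟩
  obtain ⟨u, v⟩ := p
  have h1 : run (fun q (c : Option A × Option A) => if c = (none, none) then q else M.step q c)
      M.start (col (u, v)) (max u.length v.length) = M.eval (conv u v) := by
    have h3 : M.eval (conv u v) = run M.step M.start (col (u, v)) (conv u v).length := by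
      apply foldl_eq_run
      intro n hn
      rw [conv_getElem]
      rfl
    rw [h3, conv_length]
    have h4 : ∀ K, K ≤ max u.length v.length →
        run (fun q (c : Option A × Option A) => if c = (none, none) then q else M.step q c)
        M.start (col (u, v)) K = run M.step M.start (col (u, v)) K := by
      intro K
      induction K with
      | zero => intro _; rfl
      | succ K ih =>
        intro hK
        rw [run, run, ih (by omega), if_neg]
        exact Tracked.col_ne (u, v) K hK
    exact h4 _ le_rfl
  have h2 : ∀ N, max u.length v.length ≤ N →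
      run (fun q (c : Option A × Option A) => if c = (none, none) then q else M.step q c)
      M.start (col (u, v)) N = M.eval (conv u v) := by
    intro N hN
    induction N, hN using Nat.le_induction with
    | base => exact h1
    | succ N hN ih =>
      rw [run, ih, if_pos]
      exact Tracked.col_of_le (u, v) N hN
  rw [h2 N hN]
  show conv u v ∈ M.accepts ↔ R u v
  rw [hM]
  constructor
  · rintro ⟨u', v', hR, he⟩
    obtain ⟨rfl, rfl⟩ := conv_inj he
    exact hR
  · intro hR
    exact ⟨u, v, hR, rfl⟩

theorem Rec.toSync {R : List A → List A → Prop} (h : Rec fun p : List A × List A => R p.1 p.2) :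
    SyncRec R := by
  have h1 := rec_of_enc (X := List A × List A) h
  refine Rec.toRegular (h1.congr fun z => ?_)
  constructor
  · rintro ⟨x, hz, hx⟩
    exact ⟨x.1, x.2, hx, hz⟩
  · rintro ⟨u, v, hR, hz⟩
    exact ⟨(u, v), hz, hR⟩

end

end Pool.Agent.Lib57.FA
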