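import Mathlib

/-! Linking the finite orbits of a partial injective map to one chain of order type omega. -/

namespace Pool.Agent.Lib57.FA

open Function

section

variable {α : Type} (D : α → Prop) (St : α → α → Prop) (f : α → ℕ)

/-- no predecessor -/
def Start (d : α) : Prop := D d ∧ ∀ e, ¬ St e d

/-- no successor -/
def End (d : α) : Prop := D d ∧ ∀ e, ¬ St d e

/-- next start -/
def Nxt (d e : α) : Prop :=
  Start D St d ∧ Start D St e ∧ f d < f e ∧ ∀ x, Start D St x → ¬ (f d < f x ∧ f x < f e)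

/-- the successor relation of the chain -/
def Sg (x y : α × Bool) : Prop :=
  (x.2 = true ∧ y.2 = true ∧ St x.1 y.1) ∨
  (x.2 = true ∧ y.2 = false ∧ x.1 = y.1 ∧ End D St x.1) ∨
  (x.2 = false ∧ y.2 = false ∧ St y.1 x.1) ∨
  (x.2 = false ∧ y.2 = true ∧ Nxt D St f x.1 y.1)

/-- `J` steps -/
inductive Steps (St : α → α → Prop) : ℕ → α → α → Prop
  | zero (d : α) : Steps St 0 d d
  | succ {J : ℕ} {d e g : α} (h : St d e) (h' : Steps St J e g) : Steps St (J + 1) d g

theorem Steps.trans {St : α → α → Prop} {J K : ℕ} {d e g : α} (h : Steps St J d e)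
    (h' : Steps St K e g) : Steps St (J + K) d g := by
  induction h with
  | zero d => rwa [Nat.zero_add]
  | succ h1 _ ih => rw [Nat.add_right_comm]; exact Steps.succ h1 (ih h')

variable {D St f}
  (hD : ∀ d e, St d e → D d ∧ D e)
  (fn : ∀ d e e', St d e → St d e' → e = e')
  (inj : ∀ d d' e, St d e → St d' e → d = d')
  (fw : ∀ d, D d → Acc (fun e d => St d e) d)
  (bw : ∀ d, D d → Acc (fun e d => St e d) d)
  (finj : Injective f)
  (inf : ∀ n, ∃ d, Start D St d ∧ n ≤ f d)

include inf in
theorem exists_nxt (d : α) (hd : Start D St d) : ∃ e, Nxt D St f d e := by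
  classical
  have h : ∃ n, ∃ e, Start D St e ∧ f e = n ∧ f d < n := by
    obtain ⟨e, he, hle⟩ := inf (f d + 1)
    exact ⟨f e, e, he, rfl, by omega⟩
  obtain ⟨e, he, hfe, hlt⟩ := Nat.find_spec h
  refine ⟨e, hd, he, by omega, fun x hx hlt' => ?_⟩
  exact Nat.find_min h (m := f x) (by omega) ⟨x, hx, rfl, hlt'.1⟩

include finj in
theorem nxt_unique {d e e' : α} (h : Nxt D St f d e) (h' : Nxt D St f d e') : e = e' := by
  obtain ⟨_, h2, h3, h4⟩ := h
  obtain ⟨_, h2', h3', h4'⟩ := h'
  apply finj
  rcases lt_trichotomy (f e) (f e') with h5 | h5 | h5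
  · exact absurd ⟨h3, h5⟩ (h4' e h2)
  · exact h5
  · exact absurd ⟨h3', h5⟩ (h4 e' h2')

include hD inf in
theorem sg_exists (x : α × Bool) (hx : D x.1) : ∃ y, D y.1 ∧ Sg D St f x y := by
  obtain ⟨d, s⟩ := x
  cases s
  · by_cases h : ∃ e, St e d
    · obtain ⟨e, he⟩ := h
      exact ⟨(e, false), (hD _ _ he).1, Or.inr (Or.inr (Or.inl ⟨rfl, rfl, he⟩))⟩
    · push Not at h
      obtain ⟨e, he⟩ := exists_nxt inf d ⟨hx, h⟩
      exact ⟨(e, true), he.2.1.1, Or.inr (Or.inr (Or.inr ⟨rfl, rfl, he⟩))⟩
  · by_cases h : ∃ e, St d e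
    · obtain ⟨e, he⟩ := h
      exact ⟨(e, true), (hD _ _ he).2, Or.inl ⟨rfl, rfl, he⟩⟩
    · push Not at h
      exact ⟨(d, false), hx, Or.inr (Or.inl ⟨rfl, rfl, rfl, hx, h⟩)⟩

include fn inj finj in
theorem sg_unique {x y z : α × Bool} (h : Sg D St f x y) (h' : Sg D St f x z) : y = z := by
  obtain ⟨d, s⟩ := x
  obtain ⟨e, t⟩ := y
  obtain ⟨e', t'⟩ := z
  cases s
  · simp only [Sg, Bool.false_eq_true, false_and, false_or, true_and] at h h'
    rcases h with ⟨h2, h3⟩ | ⟨h2, h3⟩ <;> rcases h' with ⟨h2', h3'⟩ | ⟨h2', h3'⟩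
    · rw [inj _ _ _ h3 h3', h2, h2']
    · exact absurd h3 (h3'.1.2 e)
    · exact absurd h3' (h3.1.2 e')
    · rw [nxt_unique finj h3 h3', h2, h2']
  · simp only [Sg, Bool.true_eq_false, false_and, or_false, true_and] at h h'
    rcases h with ⟨h2, h3⟩ | ⟨h2, h3, h4⟩ <;> rcases h' with ⟨h2', h3'⟩ | ⟨h2', h3', h4'⟩
    · rw [fn _ _ _ h3 h3', h2, h2']
    · exact absurd h3 (h4'.2 e)
    · exact absurd h3' (h4.2 e')
    · rw [← h3, ← h3', h2, h2']

include hD fn inj fw bw finj inf in
/-- the chain -/
theorem exists_pos : ∃ pos : α × Bool → ℕ, (∀ n, ∃ x, D x.1 ∧ pos x = n) ∧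
    (∀ x y, D x.1 → D y.1 → pos x = pos y → x = y) ∧
    (∀ x y, D x.1 → D y.1 → (pos y = pos x + 1 ↔ Sg D St f x y)) ∧
    (∀ d e J, D d → Steps St J d e → J < pos (d, false)) := by
  classical
  let U := {x : α × Bool // D x.1}
  choose sg hsg using fun (x : U) => sg_exists (St := St) (f := f) hD inf x.1 x.2
  let σ : U → U := fun x => ⟨sg x, (hsg x).1⟩
  have hσ : ∀ x : U, Sg D St f x.1 (σ x).1 := fun x => (hsg x).2
  have hσ' : ∀ x y : U, Sg D St f x.1 y.1 → σ x = y := fun x y h =>
    Subtype.ext (sg_unique fn inj finj (hσ x) h)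
  -- the least start
  have h0 : ∃ n, ∃ e, Start D St e ∧ f e = n := by
    obtain ⟨e, he, _⟩ := inf 0
    exact ⟨f e, e, he, rfl⟩
  obtain ⟨s0, hs0, hf0⟩ := Nat.find_spec h0
  let base : U := ⟨(s0, true), hs0.1⟩
  let Reach : U → Prop := fun x => ∃ n, σ^[n] base = x
  have reach_σ : ∀ x, Reach x → Reach (σ x) := by
    rintro x ⟨n, hn⟩
    exact ⟨n + 1, by rw [iterate_succ_apply', hn]⟩
  have reach_sg : ∀ x y : U, Reach x → Sg D St f x.1 y.1 → Reach y := by
    intro x y hx h
    rw [← hσ' x y h]
    exact reach_σ x hx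
  -- from (d, +) to (d, -)
  have turn : ∀ d (hd : D d), Reach ⟨(d, true), hd⟩ → Reach ⟨(d, false), hd⟩ := by
    intro d hd
    induction fw d hd with
    | intro d _ ih =>
      intro hr
      by_cases h : ∃ e, St d e
      · obtain ⟨e, he⟩ := h
        have he' := (hD _ _ he).2
        have h1 : Reach ⟨(e, true), he'⟩ := reach_sg _ _ hr (Or.inl ⟨rfl, rfl, he⟩)
        exact reach_sg _ _ (ih e he he' h1) (Or.inr (Or.inr (Or.inl ⟨rfl, rfl, he⟩)))
      · push Not at h
        exact reach_sg _ _ hr (Or.inr (Or.inl ⟨rfl, rfl, rfl, hd, h⟩))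
  -- all starts
  have starts : ∀ n d (hd : Start D St d), f d = n → Reach ⟨(d, true), hd.1⟩ := by
    intro n
    induction n using Nat.strong_induction_on with
    | _ n ih =>
      intro d hd hfd
      by_cases hprev : ∃ e, Start D St e ∧ f e < n
      · -- the largest smaller start
        have h1 : ∃ e, Start D St e ∧ f e < n ∧ ∀ x, Start D St x → f x < n → f x ≤ f e := by
          have hne : {k | ∃ e, Start D St e ∧ f e = k ∧ k < n}.Nonempty := by
            obtain ⟨e, he, hlt⟩ := hprev
            exact ⟨f e, e, he, rfl, hlt⟩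
          have hbd : BddAbove {k | ∃ e, Start D St e ∧ f e = k ∧ k < n} :=
            ⟨n, by rintro k ⟨_, _, _, hk⟩; omega⟩
          obtain ⟨e, he, hfe, hlt⟩ := Nat.sSup_mem hne hbd
          exact ⟨e, he, by omega, fun x hx hxn => by
            rw [hfe]; exact le_csSup hbd ⟨x, hx, rfl, hxn⟩⟩
        obtain ⟨e, he, hlt, hmax⟩ := h1
        have h2 := turn e he.1 (ih (f e) hlt e he rfl)
        have h5 : Nxt D St f e d := by
          refine ⟨he, hd, by omega, ?_⟩
          intro x hx hlt'
          have := hmax x hx (by omega)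
          omega
        exact reach_sg _ _ h2 (Or.inr (Or.inr (Or.inr ⟨rfl, rfl, h5⟩)))
      · have h1 : d = s0 := by
          apply finj
          have h2 := Nat.find_min' h0 ⟨d, hd, rfl⟩
          push Not at hprev
          have h3 := hprev s0 hs0
          omega
        subst h1
        exact ⟨0, rfl⟩
  have all_plus : ∀ d (hd : D d), Reach ⟨(d, true), hd⟩ := by
    intro d hd
    induction bw d hd with
    | intro d _ ih =>
      by_cases h : ∃ e, St e d
      · obtain ⟨e, he⟩ := h
        exact reach_sg _ _ (ih e he (hD _ _ he).1) (Or.inl ⟨rfl, rfl, he⟩)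
      · push Not at h
        exact starts _ d ⟨hd, h⟩ rfl
  have all : ∀ x : U, Reach x := by
    rintro ⟨⟨d, s⟩, hd⟩
    cases s
    · exact turn d hd (all_plus d hd)
    · exact all_plus d hd
  -- infinitely many elements
  have hinf : Infinite U := by
    by_contra hfin
    rw [not_infinite_iff_finite] at hfin
    obtain ⟨B, hB⟩ : BddAbove (Set.range fun x : U => f x.1.1) := (Set.finite_range _).bddAbove
    obtain ⟨d, hd, hle⟩ := inf (B + 1)
    have := hB ⟨⟨(d, true), hd.1⟩, rfl⟩
    simp only at this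
    omega
  have σinj : Injective fun n : ℕ => σ^[n] base := by
    intro a b hab
    by_contra hne
    have key : ∀ a b, a < b → σ^[a] base = σ^[b] base → False := by
      intro a b hlt hab
      apply hinf.not_finite
      have h1 : ∀ n, ∃ m, m < b ∧ σ^[n] base = σ^[m] base := by
        intro n
        induction n with
        | zero => exact ⟨0, by omega, rfl⟩
        | succ n ih =>
          obtain ⟨m, hm, h2⟩ := ih
          rcases Nat.lt_or_ge (m + 1) b with h3 | h3
          · exact ⟨m + 1, h3, by rw [iterate_succ_apply', iterate_succ_apply', h2]⟩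
          · refine ⟨a, hlt, ?_⟩
            rw [hab, show b = m + 1 by omega, iterate_succ_apply', iterate_succ_apply', h2]
      have h4 : Surjective fun m : Fin b => σ^[m.1] base := by
        intro x
        obtain ⟨n, hn⟩ := all x
        obtain ⟨m, hm, h5⟩ := h1 n
        exact ⟨⟨m, hm⟩, by rw [← hn, h5]⟩
      exact Finite.of_surjective _ h4
    rcases lt_or_gt_of_ne hne with h | h
    · exact key a b h hab
    · exact key b a h hab.symm
  choose ps hps using all
  let pos : α × Bool → ℕ := fun x => if h : D x.1 then ps ⟨x, h⟩ else 0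
  have hpos : ∀ x (h : D x.1), σ^[pos x] base = ⟨x, h⟩ := by
    intro x h
    simp only [pos, dif_pos h]
    exact hps ⟨x, h⟩
  have hsucc : ∀ x y, D x.1 → D y.1 → (pos y = pos x + 1 ↔ Sg D St f x y) := by
    intro x y hx hy
    constructor
    · intro h
      have h1 := hpos y hy
      rw [h, iterate_succ_apply', hpos x hx] at h1
      have h2 := hσ ⟨x, hx⟩
      rw [h1] at h2
      exact h2
    · intro h
      apply σinj
      simp only
      rw [iterate_succ_apply', hpos x hx, hpos y hy]
      exact (hσ' ⟨x, hx⟩ ⟨y, hy⟩ h).symm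
  refine ⟨pos, fun n => ?_, fun x y hx hy h => ?_, hsucc, ?_⟩
  · refine ⟨(σ^[n] base).1, (σ^[n] base).2, ?_⟩
    apply σinj
    simp only
    exact hpos (σ^[n] base).1 (σ^[n] base).2
  · have h1 := hpos x hx
    rw [h, hpos y hy] at h1
    exact (congrArg Subtype.val h1).symm
  · have key : ∀ d, D d → ∃ r, pos (d, false) = pos (d, true) + 2 * r + 1 ∧
        ∀ J e, Steps St J d e → J ≤ r := by
      intro d hd
      induction fw d hd with
      | intro d _ ih =>
        by_cases h : ∃ e, St d e
        · obtain ⟨e, he⟩ := h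
          have he' := (hD _ _ he).2
          obtain ⟨r, h1, h2⟩ := ih e he he'
          have h3 := (hsucc (d, true) (e, true) hd he').2 (Or.inl ⟨rfl, rfl, he⟩)
          have h4 := (hsucc (e, false) (d, false) he' hd).2
            (Or.inr (Or.inr (Or.inl ⟨rfl, rfl, he⟩)))
          refine ⟨r + 1, by omega, ?_⟩
          intro J g hJ
          cases hJ with
          | zero => omega
          | succ h5 h6 =>
            rw [fn _ _ _ h5 he] at h6
            have := h2 _ _ h6
            omega
        · push Not at h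
          have h3 := (hsucc (d, true) (d, false) hd hd).2 (Or.inr (Or.inl ⟨rfl, rfl, rfl, hd, h⟩))
          refine ⟨0, by omega, ?_⟩
          intro J g hJ
          cases hJ with
          | zero => omega
          | succ h5 h6 => exact absurd h5 (h _)
    intro d e J hd hJ
    obtain ⟨r, h1, h2⟩ := key d hd
    have := h2 J e hJ
    omega

end

end Pool.Agent.Lib57.FA
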