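import Mathlib
import Pool.Agent.Lib_helper57.FA.Atoms
import Pool.Agent.Lib_helper57.FA.Chain

/-! The reversible machine all of whose orbits are finite. -/

namespace Pool.Agent.Lib57.FA

open Function

/-- configurations: stage, remaining iterations, history, size, loop word, word, two words
for the count-down and the count-up -/
abbrev Cf (A : Type) : Type :=
  ℕ × ℕ × List Bool × ℕ × List Bool × List A × List A × List A

namespace Cf

variable {A : Type}

/-- stage -/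
abbrev g (c : Cf A) : ℕ := c.1
/-- iterations -/
abbrev i (c : Cf A) : ℕ := c.2.1
/-- history -/
abbrev p (c : Cf A) : List Bool := c.2.2.1
/-- size -/
abbrev m (c : Cf A) : ℕ := c.2.2.2.1
/-- loop word -/
abbrev b (c : Cf A) : List Bool := c.2.2.2.2.1
/-- word -/
abbrev v (c : Cf A) : List A := c.2.2.2.2.2.1
/-- count down -/
abbrev y (c : Cf A) : List A := c.2.2.2.2.2.2.1
/-- count up -/
abbrev z (c : Cf A) : List A := c.2.2.2.2.2.2.2

end Cf

/-- the history ends with a mark -/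
def Val (p : List Bool) : Prop := ∀ k, p.length = k + 1 → p[k]? = some true

/-- next word of length at most `|p|` -/
def NextB (p b b' : List Bool) : Prop :=
  b.length ≤ p.length ∧ b'.length ≤ p.length ∧ rk b < rk b' ∧
    ∀ x : List Bool, x.length ≤ p.length → ¬ (rk b < rk x ∧ rk x < rk b')

/-- last word of length at most `|p|` -/
def LastB (p b : List Bool) : Prop :=
  b.length ≤ p.length ∧ ∀ x : List Bool, x.length ≤ p.length → ¬ rk b < rk x

/-- column condition for `ExtP` -/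
def ExtC : Option Bool × Bool × Bool × Option Bool → Prop
  | (some x, true, true, some y) => x = y
  | (none, true, true, some y) => y = false
  | (none, false, true, some y) => y = true
  | (none, false, false, none) => True
  | _ => False

/-- `p'` is `p` followed by blanks up to length `m` and a mark, `m' = m + 1` -/
def ExtP (p : List Bool) (m m' : ℕ) (p' : List Bool) : Prop :=
  ∀ n : ℕ, ExtC (p[n]?, decide (n < m), decide (n < m'), p'[n]?)

section

variable {A : Type} [Finite A] (Lm : List A → Prop) (ψ : List A → ℕ)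

/-- the successor relation -/
def S0 (u v : List A) : Prop := Lm u ∧ Lm v ∧ ψ v = ψ u + 1

/-- normal form of zero -/
def Zero (z : List A) : Prop := Lm z ∧ ψ z = 0

/-- first normal form of length at most `m` -/
def FirstV (m : ℕ) (v : List A) : Prop :=
  Lm v ∧ v.length ≤ m ∧ ∀ x, Lm x → x.length ≤ m → ¬ rk x < rk v

/-- next normal form of length at most `m` -/
def NextV (m : ℕ) (v v' : List A) : Prop :=
  (Lm v ∧ v.length ≤ m) ∧ (Lm v' ∧ v'.length ≤ m) ∧ rk v < rk v' ∧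
    ∀ x, Lm x → x.length ≤ m → ¬ (rk v < rk x ∧ rk x < rk v')

/-- the domain -/
def Dm (c : Cf A) : Prop :=
  (Val c.p ∧ c.p.length ≤ c.m) ∧
  ((c.g = 0 ∧ c.b.length ≤ c.p.length ∧ c.v = [] ∧ c.y = [] ∧ c.z = []) ∨
  (c.g = 1 ∧ c.i = 0 ∧ c.b = [] ∧ c.v.length ≤ c.m ∧ Lm c.v ∧ Lm c.y ∧ Lm c.z))

/-- the step relation -/
def Stp (c c' : Cf A) : Prop :=
  Dm Lm c ∧ Dm Lm c' ∧
  ((c.g = 0 ∧ c'.g = 0 ∧ c'.i = c.i ∧ c'.p = c.p ∧ c'.m = c.m + 1 ∧ NextB c.p c.b c'.b) ∨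
  (c.g = 0 ∧ c'.g = 0 ∧ c.i = c'.i + 1 ∧ LastB c.p c.b ∧ c'.m = c.m + 1 ∧ c'.b = [] ∧
    ExtP c.p c.m c'.m c'.p) ∨
  (c.g = 0 ∧ c'.g = 1 ∧ c.i = 0 ∧ LastB c.p c.b ∧ c'.p = c.p ∧ c'.m = c.m ∧
    FirstV Lm c.m c'.v ∧ c'.y = c'.v ∧ Zero Lm ψ c'.z) ∨
  (c.g = 1 ∧ c'.g = 1 ∧ c'.p = c.p ∧ c'.m = c.m ∧ c'.v = c.v ∧ S0 Lm ψ c'.y c.y ∧
    S0 Lm ψ c.z c'.z) ∨
  (c.g = 1 ∧ c'.g = 1 ∧ c'.p = c.p ∧ c'.m = c.m ∧ Zero Lm ψ c.y ∧ c.z = c.v ∧
    NextV Lm c.m c.v c'.v ∧ c'.y = c'.v ∧ Zero Lm ψ c'.z))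

variable {Lm ψ}

omit [Finite A] in
theorem cf_ext {c d : Cf A} (h1 : c.g = d.g) (h2 : c.i = d.i) (h3 : c.p = d.p) (h4 : c.m = d.m)
    (h5 : c.b = d.b) (h6 : c.v = d.v) (h7 : c.y = d.y) (h8 : c.z = d.z) : c = d := by
  obtain ⟨a1, a2, a3, a4, a5, a6, a7, a8⟩ := c
  obtain ⟨b1, b2, b3, b4, b5, b6, b7, b8⟩ := d
  simp only [Cf.g, Cf.i, Cf.p, Cf.m, Cf.b, Cf.v, Cf.y, Cf.z] at *
  subst h1 h2 h3 h4 h5 h6 h7 h8
  rfl

omit [Finite A] in
theorem Dm.zero {c : Cf A} (h : Dm Lm c) (hg : c.g = 0) :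
    c.b.length ≤ c.p.length ∧ c.v = [] ∧ c.y = [] ∧ c.z = [] := by
  rcases h.2 with h | h
  · exact h.2
  · exfalso; have := h.1; omega

omit [Finite A] in
theorem Dm.one {c : Cf A} (h : Dm Lm c) (hg : c.g = 1) :
    c.i = 0 ∧ c.b = [] ∧ c.v.length ≤ c.m ∧ Lm c.v ∧ Lm c.y ∧ Lm c.z := by
  rcases h.2 with h | h
  · exfalso; have := h.1; omega
  · exact h.2

theorem nextB_unique {p b b' b'' : List Bool} (h : NextB p b b') (h' : NextB p b b'') :
    b' = b'' := by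
  obtain ⟨h1, h2, h3, h4⟩ := h
  obtain ⟨h1', h2', h3', h4'⟩ := h'
  apply rk_inj
  rcases lt_trichotomy (rk b') (rk b'') with h5 | h5 | h5
  · exact absurd ⟨h3, h5⟩ (h4' b' h2)
  · exact h5
  · exact absurd ⟨h3', h5⟩ (h4 b'' h2')

theorem prevB_unique {p b b' b'' : List Bool} (h : NextB p b' b) (h' : NextB p b'' b) :
    b' = b'' := by
  obtain ⟨h1, h2, h3, h4⟩ := h
  obtain ⟨h1', h2', h3', h4'⟩ := h'
  apply rk_inj
  rcases lt_trichotomy (rk b') (rk b'') with h5 | h5 | h5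
  · exact absurd ⟨h5, h3'⟩ (h4 b'' h1')
  · exact h5
  · exact absurd ⟨h5, h3⟩ (h4' b' h1)

theorem lastB_unique {p b b' : List Bool} (h : LastB p b) (h' : LastB p b') : b = b' := by
  apply rk_inj
  have h1 := h.2 b' h'.1
  have h2 := h'.2 b h.1
  omega

theorem nextB_lastB {p b b' : List Bool} (h : NextB p b b') (h' : LastB p b) : False :=
  h'.2 b' h.2.1 h.2.2.1

theorem nextV_unique {m : ℕ} {v v' v'' : List A} (h : NextV Lm m v v') (h' : NextV Lm m v v'') :
    v' = v'' := by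
  obtain ⟨h1, h2, h3, h4⟩ := h
  obtain ⟨h1', h2', h3', h4'⟩ := h'
  apply rk_inj
  rcases lt_trichotomy (rk v') (rk v'') with h5 | h5 | h5
  · exact absurd ⟨h3, h5⟩ (h4' v' h2.1 h2.2)
  · exact h5
  · exact absurd ⟨h3', h5⟩ (h4 v'' h2'.1 h2'.2)

theorem prevV_unique {m : ℕ} {v v' v'' : List A} (h : NextV Lm m v' v) (h' : NextV Lm m v'' v) :
    v' = v'' := by
  obtain ⟨h1, h2, h3, h4⟩ := h
  obtain ⟨h1', h2', h3', h4'⟩ := h'
  apply rk_inj
  rcases lt_trichotomy (rk v') (rk v'') with h5 | h5 | h5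
  · exact absurd ⟨h5, h3'⟩ (h4 v'' h1'.1 h1'.2)
  · exact h5
  · exact absurd ⟨h5, h3⟩ (h4' v' h1.1 h1.2)

theorem firstV_unique {m : ℕ} {v v' : List A} (h : FirstV Lm m v) (h' : FirstV Lm m v') :
    v = v' := by
  apply rk_inj
  have h1 := h.2.2 v' h'.1 h'.2.1
  have h2 := h'.2.2 v h.1 h.2.1
  omega

theorem extC_right {a : Option Bool} {x y : Bool} {u u' : Option Bool} (h : ExtC (a, x, y, u))
    (h' : ExtC (a, x, y, u')) : u = u' := by
  rcases a with _ | a <;> rcases x <;> rcases y <;> rcases u with _ | u <;>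
    rcases u' with _ | u' <;> simp_all [ExtC]

theorem extP_right {p : List Bool} {m m' : ℕ} {q q' : List Bool} (h : ExtP p m m' q)
    (h' : ExtP p m m' q') : q = q' := by
  apply List.ext_getElem?
  intro n
  exact extC_right (h n) (h' n)

theorem extP_left {p p' q : List Bool} {m m' : ℕ} (h : ExtP p m m' q) (h' : ExtP p' m m' q)
    (hv : Val p) (hv' : Val p') (hm : p.length ≤ m) (hm' : p'.length ≤ m) : p = p' := by
  have key : ∀ p p' : List Bool, ExtP p m m' q → ExtP p' m m' q → Val p' → p'.length ≤ m →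
      ¬ p.length < p'.length := by
    intro p p' h h' hv' hm' hlt
    obtain ⟨k, hk⟩ : ∃ k, p'.length = k + 1 := ⟨p'.length - 1, by omega⟩
    have h1 := h k
    have h2 := h' k
    rw [hv' k hk] at h2
    rw [List.getElem?_eq_none (show p.length ≤ k by omega)] at h1
    have h3 : decide (k < m) = true := by simp; omega
    rw [h3] at h1 h2
    cases h4 : decide (k < m') <;> rcases h5 : q[k]? with _ | y <;> rw [h4, h5] at h1 h2 <;>
      simp [ExtC] at h1 h2
    rw [h1] at h2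
    exact absurd h2 (by simp)
  have hl : p.length = p'.length := by
    have h1 := key p p' h h' hv' hm'
    have h2 := key p' p h' h hv hm
    omega
  apply List.ext_getElem?
  intro n
  rcases Nat.lt_or_ge n p.length with hn | hn
  · have h1 := h n
    have h2 := h' n
    rw [List.getElem?_eq_getElem hn] at h1 ⊢
    rw [List.getElem?_eq_getElem (show n < p'.length by omega)] at h2 ⊢
    have h3 : decide (n < m) = true := by simp; omega
    rw [h3] at h1 h2
    cases h4 : decide (n < m') <;> rcases h5 : q[n]? with _ | y <;> rw [h4, h5] at h1 h2 <;>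
      simp [ExtC] at h1 h2
    rw [h1, h2]
  · rw [List.getElem?_eq_none hn, List.getElem?_eq_none (by omega)]

theorem rk_nil {B : Type} [Finite B] : rk ([] : List B) = 0 := by
  show rkp [] (len ([] : List B)) = 0
  show rkp [] 0 = 0
  simp [rkp]

theorem stp_D {c c' : Cf A} (h : Stp Lm ψ c c') : Dm Lm c ∧ Dm Lm c' := ⟨h.1, h.2.1⟩

variable (hu : ∀ u v, Lm u → Lm v → ψ u = ψ v → u = v)

include hu in
theorem stp_fn (c d e : Cf A) (h : Stp Lm ψ c d) (h' : Stp Lm ψ c e) : d = e := by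
  obtain ⟨_, dd, h⟩ := h
  obtain ⟨_, de, h'⟩ := h'
  rcases h with ⟨g, g', hi, hp, hm, hb⟩ | ⟨g, g', hi, hb, hm, hb', hp⟩ |
    ⟨g, g', hi, hb, hp, hm, hv, hy, hz⟩ | ⟨g, g', hp, hm, hv, hy, hz⟩ |
    ⟨g, g', hp, hm, hy0, hz0, hv, hy, hz⟩ <;>
  rcases h' with ⟨k, k', hi', hp', hm', hb'⟩ | ⟨k, k', hi', hb1, hm', hb2, hp'⟩ |
    ⟨k, k', hi', hb1, hp', hm', hv', hy', hz'⟩ | ⟨k, k', hp', hm', hv', hy', hz'⟩ |
    ⟨k, k', hp', hm', hy0', hz0', hv', hy', hz'⟩
  -- 1
  · obtain ⟨_, e1, e2, e3⟩ := dd.zero g'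
    obtain ⟨_, f1, f2, f3⟩ := de.zero k'
    exact cf_ext (by omega) (by omega) (by rw [hp, hp']) (by omega) (nextB_unique hb hb')
      (by rw [e1, f1]) (by rw [e2, f2]) (by rw [e3, f3])
  · exact (nextB_lastB hb hb1).elim
  · exact (nextB_lastB hb hb1).elim
  · omega
  · omega
  -- 2
  · exact (nextB_lastB ‹_› hb).elim
  · obtain ⟨_, e1, e2, e3⟩ := dd.zero g'
    obtain ⟨_, f1, f2, f3⟩ := de.zero k'
    have hmm : d.m = e.m := by omega
    rw [hmm] at hp
    exact cf_ext (by omega) (by omega) (extP_right hp hp') hmm (by rw [hb', hb2])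
      (by rw [e1, f1]) (by rw [e2, f2]) (by rw [e3, f3])
  · omega
  · omega
  · omega
  -- 3
  · exact (nextB_lastB hb' hb).elim
  · omega
  · obtain ⟨e1, e2, _⟩ := dd.one g'
    obtain ⟨f1, f2, _⟩ := de.one k'
    have hvv := firstV_unique hv hv'
    exact cf_ext (by omega) (by omega) (by rw [hp, hp']) (by omega) (by rw [e2, f2]) hvv
      (by rw [hy, hy', hvv]) (hu _ _ hz.1 hz'.1 (by rw [hz.2, hz'.2]))
  · omega
  · omega
  -- 4
  · omega
  · omega
  · omega
  · obtain ⟨e1, e2, _⟩ := dd.one g'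
    obtain ⟨f1, f2, _⟩ := de.one k'
    exact cf_ext (by omega) (by omega) (by rw [hp, hp']) (by omega) (by rw [e2, f2])
      (by rw [hv, hv']) (hu _ _ hy.1 hy'.1 (by have := hy.2.2; have := hy'.2.2; omega))
      (hu _ _ hz.2.1 hz'.2.1 (by have := hz.2.2; have := hz'.2.2; omega))
  · have := hy.2.2
    have := hy0'.2
    omega
  -- 5
  · omega
  · omega
  · omega
  · have := hy'.2.2
    have := hy0.2
    omega
  · obtain ⟨e1, e2, _⟩ := dd.one g'
    obtain ⟨f1, f2, _⟩ := de.one k'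
    have hvv := nextV_unique hv hv'
    exact cf_ext (by omega) (by omega) (by rw [hp, hp']) (by omega) (by rw [e2, f2]) hvv
      (by rw [hy, hy', hvv]) (hu _ _ hz.1 hz'.1 (by rw [hz.2, hz'.2]))

include hu in
theorem stp_inj (d e c : Cf A) (h : Stp Lm ψ d c) (h' : Stp Lm ψ e c) : d = e := by
  obtain ⟨dd, _, h⟩ := h
  obtain ⟨de, _, h'⟩ := h'
  have nilB : ∀ {p b : List Bool}, ¬ NextB p b [] := by
    intro p b hh
    have h1 := hh.2.2.1
    rw [rk_nil] at h1
    omega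
  rcases h with ⟨g, g', hi, hp, hm, hb⟩ | ⟨g, g', hi, hb, hm, hb', hp⟩ |
    ⟨g, g', hi, hb, hp, hm, hv, hy, hz⟩ | ⟨g, g', hp, hm, hv, hy, hz⟩ |
    ⟨g, g', hp, hm, hy0, hz0, hv, hy, hz⟩ <;>
  rcases h' with ⟨k, k', hi', hp', hm', hb2⟩ | ⟨k, k', hi', hb1, hm', hb2, hp'⟩ |
    ⟨k, k', hi', hb1, hp', hm', hv', hy', hz'⟩ | ⟨k, k', hp', hm', hv', hy', hz'⟩ |
    ⟨k, k', hp', hm', hy0', hz0', hv', hy', hz'⟩
  -- 1
  · obtain ⟨_, e1, e2, e3⟩ := dd.zero g
    obtain ⟨_, f1, f2, f3⟩ := de.zero k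
    have hpp : d.p = e.p := by rw [← hp, hp']
    rw [hpp] at hb
    exact cf_ext (by omega) (by omega) hpp (by omega) (prevB_unique hb hb2)
      (by rw [e1, f1]) (by rw [e2, f2]) (by rw [e3, f3])
  · rw [hb2] at hb; exact (nilB hb).elim
  · omega
  · omega
  · omega
  -- 2
  · rw [hb'] at hb2; exact (nilB hb2).elim
  · obtain ⟨_, e1, e2, e3⟩ := dd.zero g
    obtain ⟨_, f1, f2, f3⟩ := de.zero k
    have hmm : d.m = e.m := by omega
    rw [hmm] at hp
    have hpp : d.p = e.p := extP_left hp hp' dd.1.1 de.1.1 (by rw [← hmm]; exact dd.1.2) de.1.2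
    rw [hpp] at hb
    exact cf_ext (by omega) (by omega) hpp hmm (lastB_unique hb hb1)
      (by rw [e1, f1]) (by rw [e2, f2]) (by rw [e3, f3])
  · omega
  · omega
  · omega
  -- 3
  · omega
  · omega
  · obtain ⟨_, e1, e2, e3⟩ := dd.zero g
    obtain ⟨_, f1, f2, f3⟩ := de.zero k
    have hpp : d.p = e.p := by rw [← hp, hp']
    rw [hpp] at hb
    exact cf_ext (by omega) (by omega) hpp (by omega) (lastB_unique hb hb1)
      (by rw [e1, f1]) (by rw [e2, f2]) (by rw [e3, f3])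
  · have := hz'.2.2
    have := hz.2
    omega
  · exfalso
    have hmm : d.m = e.m := by omega
    rw [hmm] at hv
    exact hv.2.2 e.v hv'.1.1 hv'.1.2 hv'.2.2.1
  -- 4
  · omega
  · omega
  · have := hz.2.2
    have := hz'.2
    omega
  · obtain ⟨e1, e2, _⟩ := dd.one g
    obtain ⟨f1, f2, _⟩ := de.one k
    exact cf_ext (by omega) (by omega) (by rw [← hp, hp']) (by omega) (by rw [e2, f2])
      (by rw [← hv, hv']) (hu _ _ hy.2.1 hy'.2.1 (by have := hy.2.2; have := hy'.2.2; omega))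
      (hu _ _ hz.1 hz'.1 (by have := hz.2.2; have := hz'.2.2; omega))
  · have := hz.2.2
    have := hz'.2
    omega
  -- 5
  · omega
  · omega
  · exfalso
    have hmm : d.m = e.m := by omega
    rw [← hmm] at hv'
    exact hv'.2.2 d.v hv.1.1 hv.1.2 hv.2.2.1
  · have := hz'.2.2
    have := hz.2
    omega
  · obtain ⟨e1, e2, _⟩ := dd.one g
    obtain ⟨f1, f2, _⟩ := de.one k
    have hmm : d.m = e.m := by omega
    rw [hmm] at hv
    have hvv := prevV_unique hv hv'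
    exact cf_ext (by omega) (by omega) (by rw [← hp, hp']) hmm (by rw [e2, f2]) hvv
      (hu _ _ hy0.1 hy0'.1 (by rw [hy0.2, hy0'.2])) (by rw [hz0, hz0', hvv])

end

end Pool.Agent.Lib57.FA
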