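import Mathlib
import Pool.Agent.Lib_helper57.FA.Machine

/-! Finite orbits; long orbits from short configurations. -/

namespace Pool.Agent.Lib57.FA

open Function

section

variable {A : Type} [Finite A] {Lm : List A → Prop} {ψ : List A → ℕ}

theorem finite_len {B : Type} [Finite B] (n : ℕ) (P : List B → Prop) :
    {x : List B | P x ∧ x.length ≤ n}.Finite :=
  (List.finite_length_le B n).subset fun _ hx => hx.2

/-- number of words beyond `b` -/
noncomputable def cntB (p b : List Bool) : ℕ := {x : List Bool | rk b < rk x ∧ x.length ≤ p.length}.ncard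

/-- number of words beyond `v` -/
noncomputable def cntV (Lm : List A → Prop) (m : ℕ) (v : List A) : ℕ :=
  {x : List A | (Lm x ∧ rk v < rk x) ∧ x.length ≤ m}.ncard

theorem cntB_lt {p b b' : List Bool} (h : NextB p b b') : cntB p b' < cntB p b := by
  apply Set.ncard_lt_ncard _ (finite_len _ _)
  rw [Set.ssubset_iff_of_subset]
  · exact ⟨b', ⟨h.2.2.1, h.2.1⟩, fun hx => absurd hx.1 (lt_irrefl _)⟩
  · rintro x ⟨h1, h2⟩
    exact ⟨h.2.2.1.trans h1, h2⟩

theorem cntV_lt {m : ℕ} {v v' : List A} (h : NextV Lm m v v') : cntV Lm m v' < cntV Lm m v := by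
  apply Set.ncard_lt_ncard _ (finite_len _ _)
  rw [Set.ssubset_iff_of_subset]
  · exact ⟨v', ⟨⟨h.2.1.1, h.2.2.1⟩, h.2.1.2⟩, fun hx => absurd hx.1.2 (lt_irrefl _)⟩
  · rintro x ⟨⟨h0, h1⟩, h2⟩
    exact ⟨⟨h0, h.2.2.1.trans h1⟩, h2⟩

theorem stp_fw (d : Cf A) : Acc (fun e d => Stp Lm ψ d e) d := by
  let μ : Cf A → ℕ × ℕ × ℕ := fun c => if c.g = 0 then (c.i + 1, cntB c.p c.b, 0) else
    (0, cntV Lm c.m c.v, ψ c.y)
  have hwf : WellFounded (Prod.Lex (· < ·) (Prod.Lex (· < ·) (· < ·) : ℕ × ℕ → ℕ × ℕ → Prop) :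
      ℕ × ℕ × ℕ → ℕ × ℕ × ℕ → Prop) :=
    WellFounded.prod_lex Nat.lt_wfRel.wf (WellFounded.prod_lex Nat.lt_wfRel.wf Nat.lt_wfRel.wf)
  have hsub : ∀ e d, Stp Lm ψ d e →
      Prod.Lex (· < ·) (Prod.Lex (· < ·) (· < ·)) (μ e) (μ d) := by
    rintro e d ⟨_, _, h⟩
    rcases h with ⟨g, g', hi, hp, hm, hb⟩ | ⟨g, g', hi, hb, hm, hb', hp⟩ |
      ⟨g, g', hi, hb, hp, hm, hv, hy, hz⟩ | ⟨g, g', hp, hm, hv, hy, hz⟩ |
      ⟨g, g', hp, hm, hy0, hz0, hv, hy, hz⟩
    · simp only [μ, if_pos g, if_pos g', hi, hp]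
      exact Prod.Lex.right _ (Prod.Lex.left _ _ (cntB_lt hb))
    · simp only [μ, if_pos g, if_pos g', hi]
      exact Prod.Lex.left _ _ (by omega)
    · have g'' : e.g ≠ 0 := by omega
      simp only [μ, if_pos g, if_neg g'']
      exact Prod.Lex.left _ _ (by omega)
    · have g'' : e.g ≠ 0 := by omega
      have g3 : d.g ≠ 0 := by omega
      simp only [μ, if_neg g3, if_neg g'', hm, hv]
      exact Prod.Lex.right _ (Prod.Lex.right _ (by have := hy.2.2; omega))
    · have g'' : e.g ≠ 0 := by omega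
      have g3 : d.g ≠ 0 := by omega
      simp only [μ, if_neg g3, if_neg g'', hm]
      exact Prod.Lex.right _ (Prod.Lex.left _ _ (cntV_lt hv))
  exact (Subrelation.wf (fun {e d} h => hsub e d h) (InvImage.wf μ hwf)).apply d

theorem stp_bw (d : Cf A) : Acc (fun e d => Stp Lm ψ e d) d := by
  let μ : Cf A → ℕ × ℕ × ℕ := fun c => if c.g = 0 then (0, c.m, 0) else (1, rk c.v, ψ c.z)
  have hwf : WellFounded (Prod.Lex (· < ·) (Prod.Lex (· < ·) (· < ·) : ℕ × ℕ → ℕ × ℕ → Prop) :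
      ℕ × ℕ × ℕ → ℕ × ℕ × ℕ → Prop) :=
    WellFounded.prod_lex Nat.lt_wfRel.wf (WellFounded.prod_lex Nat.lt_wfRel.wf Nat.lt_wfRel.wf)
  have hsub : ∀ d e, Stp Lm ψ d e →
      Prod.Lex (· < ·) (Prod.Lex (· < ·) (· < ·)) (μ d) (μ e) := by
    rintro d e ⟨_, _, h⟩
    rcases h with ⟨g, g', hi, hp, hm, hb⟩ | ⟨g, g', hi, hb, hm, hb', hp⟩ |
      ⟨g, g', hi, hb, hp, hm, hv, hy, hz⟩ | ⟨g, g', hp, hm, hv, hy, hz⟩ |
      ⟨g, g', hp, hm, hy0, hz0, hv, hy, hz⟩
    · simp only [μ, if_pos g, if_pos g']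
      exact Prod.Lex.right _ (Prod.Lex.left _ _ (by omega))
    · simp only [μ, if_pos g, if_pos g']
      exact Prod.Lex.right _ (Prod.Lex.left _ _ (by omega))
    · have g'' : e.g ≠ 0 := by omega
      simp only [μ, if_pos g, if_neg g'']
      exact Prod.Lex.left _ _ (by omega)
    · have g'' : e.g ≠ 0 := by omega
      have g3 : d.g ≠ 0 := by omega
      simp only [μ, if_neg g3, if_neg g'', hv]
      exact Prod.Lex.right _ (Prod.Lex.right _ (by have := hz.2.2; omega))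
    · have g'' : e.g ≠ 0 := by omega
      have g3 : d.g ≠ 0 := by omega
      simp only [μ, if_neg g3, if_neg g'']
      exact Prod.Lex.right _ (Prod.Lex.left _ _ hv.2.2.1)
  exact (Subrelation.wf (fun {e d} h => hsub e d h) (InvImage.wf μ hwf)).apply d

/-- the short start configurations -/
def st0 (A : Type) (n : ℕ) : Cf A := (0, n, [], 0, [], [], [], [])

theorem val_nil : Val [] := fun k h => absurd h (by simp)

omit [Finite A] in
theorem st0_dm (n : ℕ) : Dm Lm (st0 A n) :=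
  ⟨⟨val_nil, le_rfl⟩, Or.inl ⟨rfl, le_rfl, rfl, rfl, rfl⟩⟩

theorem st0_start (n : ℕ) : Start (Dm Lm) (Stp Lm ψ) (st0 A n) := by
  refine ⟨st0_dm n, ?_⟩
  rintro e ⟨_, _, h⟩
  rcases h with ⟨g, g', hi, hp, hm, hb⟩ | ⟨g, g', hi, hb, hm, hb', hp⟩ |
    ⟨g, g', hi, hb, hp, hm, hv, hy, hz⟩ | ⟨g, g', hp, hm, hv, hy, hz⟩ |
    ⟨g, g', hp, hm, hy0, hz0, hv, hy, hz⟩
  · have h1 : (st0 A n).m = 0 := rfl
    omega
  · have h1 : (st0 A n).m = 0 := rfl
    omega
  · have h1 : (st0 A n).g = 0 := rfl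
    omega
  · have h1 : (st0 A n).g = 0 := rfl
    omega
  · have h1 : (st0 A n).g = 0 := rfl
    omega

theorem st0_inf {f : Cf A → ℕ} (hf : Injective f) (n : ℕ) :
    ∃ d, Start (Dm Lm) (Stp Lm ψ) d ∧ n ≤ f d := by
  by_contra hcon
  push Not at hcon
  have h1 : ∀ k, f (st0 A k) < n := fun k => hcon _ (st0_start k)
  have hinj : Injective fun k : ℕ => (⟨f (st0 A k), h1 k⟩ : Fin n) := by
    intro a b hab
    have h2 := hf (Fin.mk.inj_iff.1 hab)
    exact congrArg Cf.i h2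
  exact not_injective_infinite_finite _ hinj

/-! ### the loop over the words `b` -/

theorem exists_prevB {p b : List Bool} (hb : b.length ≤ p.length) (hne : b ≠ []) :
    ∃ b', NextB p b' b := by
  have hr : rk ([] : List Bool) < rk b := by
    rw [rk_nil]
    rcases Nat.eq_zero_or_pos (rk b) with h | h
    · exfalso; exact hne (rk_inj (by rw [h, rk_nil]))
    · exact h
  have hne' : {k | ∃ x : List Bool, x.length ≤ p.length ∧ rk x = k ∧ k < rk b}.Nonempty :=
    ⟨rk ([] : List Bool), [], Nat.zero_le _, rfl, hr⟩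
  have hbd : BddAbove {k | ∃ x : List Bool, x.length ≤ p.length ∧ rk x = k ∧ k < rk b} :=
    ⟨rk b, by rintro k ⟨_, _, _, hk⟩; omega⟩
  obtain ⟨x, hx, hxk, hlt⟩ := Nat.sSup_mem hne' hbd
  refine ⟨x, hx, hb, by omega, fun y hy hlt' => ?_⟩
  have := le_csSup hbd ⟨y, hy, rfl, hlt'.2⟩
  omega

/-- number of words before `b` -/
noncomputable def befB (p b : List Bool) : ℕ :=
  {x : List Bool | rk x < rk b ∧ x.length ≤ p.length}.ncard

theorem befB_nil (p : List Bool) : befB p [] = 0 := by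
  unfold befB
  rw [rk_nil]
  simp

theorem befB_next {p b b' : List Bool} (h : NextB p b b') : befB p b' = befB p b + 1 := by
  unfold befB
  have h1 : {x : List Bool | rk x < rk b' ∧ x.length ≤ p.length} =
      insert b {x : List Bool | rk x < rk b ∧ x.length ≤ p.length} := by
    ext x
    simp only [Set.mem_insert_iff, Set.mem_ofPred_eq]
    constructor
    · rintro ⟨h2, h3⟩
      rcases lt_trichotomy (rk x) (rk b) with h4 | h4 | h4
      · exact Or.inr ⟨h4, h3⟩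
      · exact Or.inl (rk_inj h4)
      · exact absurd ⟨h4, h2⟩ (h.2.2.2 x h3)
    · rintro (h2 | ⟨h2, h3⟩)
      · rw [h2]; exact ⟨h.2.2.1, h.1⟩
      · exact ⟨h2.trans h.2.2.1, h3⟩
  rw [h1, Set.ncard_insert_of_notMem (fun h2 => absurd h2.1 (lt_irrefl _)) (finite_len _ _)]

theorem befB_last {p b : List Bool} (h : LastB p b) : 2 ^ p.length ≤ befB p b + 1 := by
  have h1 : befB p b + 1 = {x : List Bool | True ∧ x.length ≤ p.length}.ncard := by
    unfold befB
    have h2 : {x : List Bool | True ∧ x.length ≤ p.length} =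
        insert b {x : List Bool | rk x < rk b ∧ x.length ≤ p.length} := by
      ext x
      simp only [Set.mem_insert_iff, Set.mem_ofPred_eq, true_and]
      constructor
      · intro h3
        rcases lt_trichotomy (rk x) (rk b) with h4 | h4 | h4
        · exact Or.inr ⟨h4, h3⟩
        · exact Or.inl (rk_inj h4)
        · exact absurd h4 (h.2 x h3)
      · rintro (h2 | ⟨h2, h3⟩)
        · rw [h2]; exact h.1
        · exact h3
    rw [h2, Set.ncard_insert_of_notMem (fun h2 => absurd h2.1 (lt_irrefl _)) (finite_len _ _)]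
  rw [h1]
  have h3 : Set.range (fun x : List.Vector Bool p.length => x.toList) ⊆
      {x : List Bool | True ∧ x.length ≤ p.length} := by
    rintro _ ⟨x, rfl⟩
    exact ⟨trivial, (x.toList_length).le⟩
  have hinj : Injective (fun x : List.Vector Bool p.length => x.toList) :=
    fun a b h => List.Vector.eq a b h
  have h4 := Set.ncard_le_ncard h3 (finite_len _ _)
  rw [← Set.image_univ, Set.ncard_image_of_injective _ hinj, Set.ncard_univ,
    Nat.card_eq_fintype_card, card_vector, Fintype.card_bool] at h4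
  exact h4

theorem loop_b {i m : ℕ} {p : List Bool} (hp : Val p) (hm : p.length ≤ m) (b : List Bool)
    (hb : b.length ≤ p.length) : Steps (Stp Lm ψ) (befB p b) ((0, i, p, m, [], [], [], []) : Cf A)
      (0, i, p, m + befB p b, b, [], [], []) := by
  induction h : rk b using Nat.strong_induction_on generalizing b with
  | _ n ih =>
    by_cases hne : b = []
    · subst hne
      rw [befB_nil]
      exact Steps.zero _
    · obtain ⟨b', hb'⟩ := exists_prevB hb hne
      have h1 := ih (rk b') (by have := hb'.2.2.1; omega) b' hb'.1 rfl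
      rw [befB_next hb']
      refine h1.trans (Steps.succ ?_ (Steps.zero _))
      refine ⟨⟨⟨hp, ?_⟩, Or.inl ⟨rfl, hb'.1, rfl, rfl, rfl⟩⟩,
        ⟨⟨hp, ?_⟩, Or.inl ⟨rfl, hb, rfl, rfl, rfl⟩⟩, Or.inl ⟨rfl, rfl, rfl, rfl, rfl, hb'⟩⟩
      · show p.length ≤ m + befB p b'
        omega
      · show p.length ≤ m + (befB p b' + 1)
        omega

theorem exists_lastB (p : List Bool) : ∃ b, LastB p b := by
  have hfin := (List.finite_length_le Bool p.length)
  obtain ⟨b, hb, hmax⟩ := Set.exists_max_image {x : List Bool | x.length ≤ p.length} rk hfin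
    ⟨[], Nat.zero_le _⟩
  exact ⟨b, hb, fun x hx => not_lt.2 (hmax x hx)⟩

theorem exists_ext (p : List Bool) (m : ℕ) (hm : p.length ≤ m) :
    ∃ q : List Bool, ExtP p m (m + 1) q ∧ q.length = m + 1 ∧ Val q := by
  refine ⟨p ++ List.replicate (m - p.length) false ++ [true], ?_, ?_, ?_⟩
  · intro n
    rcases lt_trichotomy n m with h | h | h
    · have e1 : decide (n < m) = true := by simpa using h
      have e2 : decide (n < m + 1) = true := by simp; omega
      rw [e1, e2, List.getElem?_append_left (by simp; omega)]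
      rcases Nat.lt_or_ge n p.length with h1 | h1
      · rw [List.getElem?_append_left h1, List.getElem?_eq_getElem h1]
        simp [ExtC]
      · rw [List.getElem?_append_right h1, List.getElem?_eq_none h1,
          List.getElem?_replicate_of_lt (by omega)]
        simp [ExtC]
    · subst h
      have e1 : decide (n < n) = false := by simp
      have e2 : decide (n < n + 1) = true := by simp
      rw [e1, e2, List.getElem?_eq_none hm, List.getElem?_append_right (by simp; omega)]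
      have e3 : n - (p ++ List.replicate (n - p.length) false).length = 0 := by simp; omega
      rw [e3]
      simp [ExtC]
    · have e1 : decide (n < m) = false := by simp; omega
      have e2 : decide (n < m + 1) = false := by simp; omega
      rw [e1, e2, List.getElem?_eq_none (by omega), List.getElem?_eq_none (by simp; omega)]
      simp [ExtC]
  · simp
    omega
  · intro k hk
    have hk' : k = (p ++ List.replicate (m - p.length) false).length := by
      simp at hk ⊢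
      omega
    rw [hk']
    simp

/-- size after `n` iterations -/
def kap : ℕ → ℕ
  | 0 => 0
  | n + 1 => kap n + 2 ^ kap n

theorem T_le_kap (n : ℕ) : T n ≤ kap (n + 1) := by
  induction n with
  | zero => simp [T, kap]
  | succ n ih =>
    rw [T, kap]
    exact (Nat.pow_le_pow_right (by norm_num) ih).trans (Nat.le_add_left _ _)

theorem run_stage1 (n : ℕ) : ∀ (s : ℕ) (p : List Bool), Val p → kap s ≤ p.length →
    ∃ J p' m' b', Steps (Stp Lm ψ) J ((0, n, p, p.length, [], [], [], []) : Cf A)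
      (0, 0, p', m', b', [], [], []) ∧ Val p' ∧ p'.length ≤ m' ∧ LastB p' b' ∧
      kap (s + n + 1) ≤ m' + 1 := by
  induction n with
  | zero =>
    intro s p hp hs
    obtain ⟨b, hb⟩ := exists_lastB p
    have h1 := loop_b (Lm := Lm) (ψ := ψ) (i := 0) hp le_rfl b hb.1
    refine ⟨_, _, _, _, h1, hp, by omega, hb, ?_⟩
    have h2 := befB_last hb
    have h3 : 2 ^ kap s ≤ 2 ^ p.length := Nat.pow_le_pow_right (by norm_num) hs
    show kap s + 2 ^ kap s ≤ _
    omega
  | succ n ih =>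
    intro s p hp hs
    obtain ⟨b, hb⟩ := exists_lastB p
    have h1 := loop_b (Lm := Lm) (ψ := ψ) (i := n + 1) hp le_rfl b hb.1
    have h2 := befB_last hb
    have h3 : 2 ^ kap s ≤ 2 ^ p.length := Nat.pow_le_pow_right (by norm_num) hs
    obtain ⟨q, hq1, hq2, hq3⟩ := exists_ext p (p.length + befB p b) (by omega)
    have h4 : Stp Lm ψ ((0, n + 1, p, p.length + befB p b, b, [], [], []) : Cf A)
        (0, n, q, q.length, [], [], [], []) := by
      refine ⟨⟨⟨hp, by show p.length ≤ p.length + befB p b; omega⟩,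
        Or.inl ⟨rfl, hb.1, rfl, rfl, rfl⟩⟩,
        ⟨⟨hq3, le_rfl⟩, Or.inl ⟨rfl, Nat.zero_le _, rfl, rfl, rfl⟩⟩,
        Or.inr (Or.inl ⟨rfl, rfl, rfl, hb, hq2, rfl, ?_⟩)⟩
      show ExtP p (p.length + befB p b) q.length q
      rw [hq2]
      exact hq1
    obtain ⟨J, p', m', b', h5, h6, h7, h8, h9⟩ := ih (s + 1) q hq3 (by
      show kap s + 2 ^ kap s ≤ _
      omega)
    refine ⟨_, p', m', b', (h1.trans (Steps.succ h4 h5)), h6, h7, h8, ?_⟩
    rw [show s + (n + 1) + 1 = s + 1 + n + 1 by omega]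
    exact h9

/-! ### second stage -/

variable (hs : ∀ n, ∃ u, Lm u ∧ ψ u = n)

include hs in
theorem countdown {p : List Bool} {m : ℕ} (hp : Val p) (hm : p.length ≤ m) {v : List A}
    (hv : Lm v) (hvm : v.length ≤ m) (k : ℕ) : ∀ y z : List A, Lm y → Lm z → ψ y = k →
    ∃ y' z', Lm y' ∧ Lm z' ∧ ψ y' = 0 ∧ ψ z' = ψ z + k ∧
      Steps (Stp Lm ψ) k ((1, 0, p, m, [], v, y, z) : Cf A) (1, 0, p, m, [], v, y', z') := by
  induction k with
  | zero =>
    intro y z hy hz hk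
    exact ⟨y, z, hy, hz, hk, rfl, Steps.zero _⟩
  | succ k ih =>
    intro y z hy hz hk
    obtain ⟨y1, hy1, hy2⟩ := hs k
    obtain ⟨z1, hz1, hz2⟩ := hs (ψ z + 1)
    obtain ⟨y', z', a1, a2, a3, a4, a5⟩ := ih y1 z1 hy1 hz1 hy2
    refine ⟨y', z', a1, a2, a3, by omega, Steps.succ ?_ a5⟩
    exact ⟨⟨⟨hp, hm⟩, Or.inr ⟨rfl, rfl, rfl, hvm, hv, hy, hz⟩⟩,
      ⟨⟨hp, hm⟩, Or.inr ⟨rfl, rfl, rfl, hvm, hv, hy1, hz1⟩⟩,
      Or.inr (Or.inr (Or.inr (Or.inl ⟨rfl, rfl, rfl, rfl, rfl, ⟨hy1, hy, by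
        show ψ y = ψ y1 + 1; omega⟩, ⟨hz, hz1, hz2⟩⟩)))⟩

theorem exists_prevV {m : ℕ} {v : List A} (hv : Lm v) (hvm : v.length ≤ m)
    (hn : ¬ FirstV Lm m v) : ∃ v', NextV Lm m v' v := by
  have h1 : ∃ x, Lm x ∧ x.length ≤ m ∧ rk x < rk v := by
    by_contra hcon
    push Not at hcon
    exact hn ⟨hv, hvm, fun x hx hxm => not_lt.2 (hcon x hx hxm)⟩
  have hne' : {k | ∃ x : List A, (Lm x ∧ x.length ≤ m) ∧ rk x = k ∧ k < rk v}.Nonempty := by
    obtain ⟨x, hx, hxm, hlt⟩ := h1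
    exact ⟨rk x, x, ⟨hx, hxm⟩, rfl, hlt⟩
  have hbd : BddAbove {k | ∃ x : List A, (Lm x ∧ x.length ≤ m) ∧ rk x = k ∧ k < rk v} :=
    ⟨rk v, by rintro k ⟨_, _, _, hk⟩; omega⟩
  obtain ⟨x, hx, hxk, hlt⟩ := Nat.sSup_mem hne' hbd
  refine ⟨x, hx, ⟨hv, hvm⟩, by omega, fun y hy hym hlt' => ?_⟩
  have := le_csSup hbd ⟨y, ⟨hy, hym⟩, rfl, hlt'.2⟩
  omega

variable (hu : ∀ u v, Lm u → Lm v → ψ u = ψ v → u = v)

include hs hu in
theorem run_stage2 {p b : List Bool} {m : ℕ} (hp : Val p) (hm : p.length ≤ m) (hb : LastB p b)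
    {z0 : List A} (hz0 : Lm z0) (hz0' : ψ z0 = 0) (v : List A) (hv : Lm v) (hvm : v.length ≤ m) :
    ∃ J, Steps (Stp Lm ψ) J ((0, 0, p, m, b, [], [], []) : Cf A) (1, 0, p, m, [], v, v, z0) := by
  induction h : rk v using Nat.strong_induction_on generalizing v with
  | _ n ih =>
    by_cases hf : FirstV Lm m v
    · refine ⟨1, Steps.succ ?_ (Steps.zero _)⟩
      exact ⟨⟨⟨hp, hm⟩, Or.inl ⟨rfl, hb.1, rfl, rfl, rfl⟩⟩,
        ⟨⟨hp, hm⟩, Or.inr ⟨rfl, rfl, rfl, hvm, hv, hv, hz0⟩⟩,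
        Or.inr (Or.inr (Or.inl ⟨rfl, rfl, rfl, hb, rfl, rfl, hf, rfl, hz0, hz0'⟩))⟩
    · obtain ⟨v', hv'⟩ := exists_prevV hv hvm hf
      obtain ⟨J, hJ⟩ := ih (rk v') (by have := hv'.2.2.1; omega) v' hv'.1.1 hv'.1.2 rfl
      obtain ⟨y', z', a1, a2, a3, a4, a5⟩ := countdown hs hp hm hv'.1.1 hv'.1.2 (ψ v') v' z0
        hv'.1.1 hz0 rfl
      have e1 : z' = v' := hu _ _ a2 hv'.1.1 (by omega)
      subst e1
      refine ⟨_, (hJ.trans a5).trans (Steps.succ ?_ (Steps.zero _))⟩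
      exact ⟨⟨⟨hp, hm⟩, Or.inr ⟨rfl, rfl, rfl, hv'.1.2, hv'.1.1, a1, a2⟩⟩,
        ⟨⟨hp, hm⟩, Or.inr ⟨rfl, rfl, rfl, hvm, hv, hv, hz0⟩⟩,
        Or.inr (Or.inr (Or.inr (Or.inr ⟨rfl, rfl, rfl, rfl, ⟨a1, a3⟩, rfl, hv', rfl, hz0, hz0'⟩)))⟩

include hs hu in
/-- the orbit of a short configuration is long -/
theorem long_orbit (n : ℕ) (u : List A) (hlu : Lm u) (hul : u.length + 1 ≤ T n) :
    ∃ J e, ψ u ≤ J ∧ Steps (Stp Lm ψ) J (st0 A n) e := by
  obtain ⟨J, p', m', b', h5, h6, h7, h8, h9⟩ := run_stage1 (Lm := Lm) (ψ := ψ) n 0 [] val_nil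
    (Nat.zero_le _)
  obtain ⟨z0, hz0, hz0'⟩ := hs 0
  have h10 := T_le_kap n
  rw [Nat.zero_add] at h9
  obtain ⟨K, hK⟩ := run_stage2 hs hu h6 h7 h8 hz0 hz0' u hlu (by omega)
  obtain ⟨y', z', a1, a2, a3, a4, a5⟩ := countdown hs h6 h7 hlu (by omega) (ψ u) u z0 hlu hz0 rfl
  exact ⟨J + K + ψ u, _, by omega, (h5.trans hK).trans a5⟩

end

end Pool.Agent.Lib57.FA
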