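import Mathlib
import Pool.Agent.Lib_helper57.FA.Machine2

/-! Recognisability of the step relation. -/

namespace Pool.Agent.Lib57.FA

open Function

set_option synthInstance.maxSize 100000

section cw

variable {X C A : Type} [Tracked X C] [Finite A] {f : X → Cf A} [CW f]

instance cw_g : CW (fun x => (f x).g) := inferInstanceAs (CW fun x => (f x).1)
instance cw_i : CW (fun x => (f x).i) := inferInstanceAs (CW fun x => (f x).2.1)
instance cw_p : CW (fun x => (f x).p) := inferInstanceAs (CW fun x => (f x).2.2.1)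
instance cw_m : CW (fun x => (f x).m) := inferInstanceAs (CW fun x => (f x).2.2.2.1)
instance cw_b : CW (fun x => (f x).b) := inferInstanceAs (CW fun x => (f x).2.2.2.2.1)
instance cw_v : CW (fun x => (f x).v) := inferInstanceAs (CW fun x => (f x).2.2.2.2.2.1)
instance cw_y : CW (fun x => (f x).y) := inferInstanceAs (CW fun x => (f x).2.2.2.2.2.2.1)
instance cw_z : CW (fun x => (f x).z) := inferInstanceAs (CW fun x => (f x).2.2.2.2.2.2.2)

end cw

section atoms

variable {X C : Type} [Tracked X C]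

theorem Rec.nat_zero (f : X → ℕ) [CW f] : Rec fun x => f x = 0 := Rec.len_zero.app f

theorem rec_nat_one : Rec fun n : ℕ => n = 1 :=
  (Rec.ex (P := fun (n k : ℕ) => k = 0 ∧ n = k + 1)
    ((Rec.nat_zero (fun p : ℕ × ℕ => p.2)).and
      (Rec.succ_app (fun p : ℕ × ℕ => p.2) (fun p => p.1)))).congr fun n => by
    constructor
    · rintro ⟨k, rfl, h⟩; exact h
    · intro h; exact ⟨0, rfl, h⟩

theorem Rec.nat_one (f : X → ℕ) [CW f] : Rec fun x => f x = 1 := rec_nat_one.app f

theorem rec_list_nil {A : Type} [Finite A] : Rec fun u : List A => u = [] :=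
  Rec.len_zero.congr fun u => List.length_eq_zero_iff

theorem Rec.list_nil {A : Type} [Finite A] (f : X → List A) [CW f] : Rec fun x => f x = [] :=
  rec_list_nil.app f

theorem Rec.list_le {A B : Type} [Finite A] [Finite B] (f : X → List A) (g : X → List B)
    [CW f] [CW g] : Rec fun x => (f x).length ≤ (g x).length := Rec.len_le_app f g

theorem Rec.list_le_nat {A : Type} [Finite A] (f : X → List A) (g : X → ℕ)
    [CW f] [CW g] : Rec fun x => (f x).length ≤ g x := Rec.len_le_app f g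

theorem Rec.nat_le_list {A : Type} [Finite A] (f : X → ℕ) (g : X → List A)
    [CW f] [CW g] : Rec fun x => f x ≤ (g x).length := Rec.len_le_app f g

end atoms

theorem rec_val : Rec fun p : List Bool => Val p := by
  have h1 : Rec fun q : (List Bool × ℕ) × ℕ => ∀ n : ℕ,
      (decide (n < q.1.2) = false ∧ decide (n < q.2) = true) → q.1.1[n]? = some true :=
    rec_all_cols (X := (List Bool × ℕ) × ℕ)
      (fun c => (c.1.2 = false ∧ c.2 = true) → c.1.1 = some true)
  have h2 : Rec fun q : (List Bool × ℕ) × ℕ =>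
      ((q.2 = q.1.2 + 1 ∧ q.1.1.length ≤ q.2 ∧ q.2 ≤ q.1.1.length) → ∀ n : ℕ,
      (decide (n < q.1.2) = false ∧ decide (n < q.2) = true) → q.1.1[n]? = some true) :=
    ((Rec.succ_app (fun q : (List Bool × ℕ) × ℕ => q.1.2) (fun q => q.2)).and
      ((Rec.list_le_nat (fun q : (List Bool × ℕ) × ℕ => q.1.1) (fun q => q.2)).and
      (Rec.nat_le_list (fun q : (List Bool × ℕ) × ℕ => q.2) (fun q => q.1.1)))).imp h1
  refine (Rec.all (P := fun (p : List Bool) (k : ℕ) => ∀ k' : ℕ,
    (k' = k + 1 ∧ p.length ≤ k' ∧ k' ≤ p.length) → ∀ n : ℕ,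
      (decide (n < k) = false ∧ decide (n < k') = true) → p[n]? = some true)
    (Rec.all (P := fun (q : List Bool × ℕ) (k' : ℕ) =>
      (k' = q.2 + 1 ∧ q.1.length ≤ k' ∧ k' ≤ q.1.length) → ∀ n : ℕ,
      (decide (n < q.2) = false ∧ decide (n < k') = true) → q.1[n]? = some true) h2)).congr
    fun p => ?_
  constructor
  · intro h k hk
    exact h k (k + 1) ⟨rfl, by omega, by omega⟩ k ⟨by simp, by simp⟩
  · rintro h k k' ⟨rfl, h1, h2⟩ n ⟨h3, h4⟩
    simp at h3 h4
    have : n = k := by omega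
    subst this
    exact h n (by omega)

theorem rec_nextB : Rec fun q : List Bool × List Bool × List Bool => NextB q.1 q.2.1 q.2.2 := by
  refine (Rec.list_le (fun q : List Bool × List Bool × List Bool => q.2.1) (fun q => q.1)).and
    ((Rec.list_le (fun q : List Bool × List Bool × List Bool => q.2.2) (fun q => q.1)).and
    ((Rec.rk_lt_app (fun q : List Bool × List Bool × List Bool => q.2.1) (fun q => q.2.2)).and ?_))
  refine Rec.all (P := fun (q : List Bool × List Bool × List Bool) (x : List Bool) =>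
    x.length ≤ q.1.length → ¬ (rk q.2.1 < rk x ∧ rk x < rk q.2.2)) ?_
  exact (Rec.list_le (fun r : (List Bool × List Bool × List Bool) × List Bool => r.2)
      (fun r => r.1.1)).imp
    ((Rec.rk_lt_app (fun r : (List Bool × List Bool × List Bool) × List Bool => r.1.2.1)
      (fun r => r.2)).and
    (Rec.rk_lt_app (fun r : (List Bool × List Bool × List Bool) × List Bool => r.2)
      (fun r => r.1.2.2))).not

theorem rec_lastB : Rec fun q : List Bool × List Bool => LastB q.1 q.2 := by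
  refine (Rec.list_le (fun q : List Bool × List Bool => q.2) (fun q => q.1)).and ?_
  refine Rec.all (P := fun (q : List Bool × List Bool) (x : List Bool) =>
    x.length ≤ q.1.length → ¬ rk q.2 < rk x) ?_
  exact (Rec.list_le (fun r : (List Bool × List Bool) × List Bool => r.2)
      (fun r => r.1.1)).imp
    (Rec.rk_lt_app (fun r : (List Bool × List Bool) × List Bool => r.1.2) (fun r => r.2)).not

theorem rec_extP : Rec fun q : List Bool × ℕ × ℕ × List Bool => ExtP q.1 q.2.1 q.2.2.1 q.2.2.2 :=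
  rec_all_cols (X := List Bool × ℕ × ℕ × List Bool) ExtC

section

variable {A : Type} [Finite A] {Lm : List A → Prop} {ψ : List A → ℕ}
  (hL : Rec fun u : List A => Lm u)
  (hS : Rec fun q : List A × List A => S0 Lm ψ q.1 q.2)
  (hs : ∀ n, ∃ u, Lm u ∧ ψ u = n)

include hL hS hs in
theorem rec_zero : Rec fun z : List A => Zero Lm ψ z := by
  refine (hL.and (Rec.ex (P := fun (z x : List A) => S0 Lm ψ x z)
    (hS.app fun q : List A × List A => (q.2, q.1))).not).congr fun z => ?_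
  constructor
  · rintro ⟨h1, h2⟩
    refine ⟨h1, ?_⟩
    by_contra h3
    obtain ⟨x, hx, hxz⟩ := hs (ψ z - 1)
    exact h2 ⟨x, hx, h1, by omega⟩
  · rintro ⟨h1, h2⟩
    refine ⟨h1, ?_⟩
    rintro ⟨x, _, _, hx⟩
    omega

include hL in
theorem rec_firstV : Rec fun q : ℕ × List A => FirstV Lm q.1 q.2 := by
  refine (hL.app fun q : ℕ × List A => q.2).and
    ((Rec.list_le_nat (fun q : ℕ × List A => q.2) (fun q => q.1)).and ?_)
  refine Rec.all (P := fun (q : ℕ × List A) (x : List A) =>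
    Lm x → x.length ≤ q.1 → ¬ rk x < rk q.2) ?_
  exact (hL.app fun r : (ℕ × List A) × List A => r.2).imp
    ((Rec.list_le_nat (fun r : (ℕ × List A) × List A => r.2) (fun r => r.1.1)).imp
    (Rec.rk_lt_app (fun r : (ℕ × List A) × List A => r.2) (fun r => r.1.2)).not)

include hL in
theorem rec_nextV : Rec fun q : ℕ × List A × List A => NextV Lm q.1 q.2.1 q.2.2 := by
  refine ((hL.app fun q : ℕ × List A × List A => q.2.1).and
    (Rec.list_le_nat (fun q : ℕ × List A × List A => q.2.1) (fun q => q.1))).and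
    (((hL.app fun q : ℕ × List A × List A => q.2.2).and
    (Rec.list_le_nat (fun q : ℕ × List A × List A => q.2.2) (fun q => q.1))).and
    ((Rec.rk_lt_app (fun q : ℕ × List A × List A => q.2.1) (fun q => q.2.2)).and ?_))
  refine Rec.all (P := fun (q : ℕ × List A × List A) (x : List A) =>
    Lm x → x.length ≤ q.1 → ¬ (rk q.2.1 < rk x ∧ rk x < rk q.2.2)) ?_
  exact (hL.app fun r : (ℕ × List A × List A) × List A => r.2).imp
    ((Rec.list_le_nat (fun r : (ℕ × List A × List A) × List A => r.2) (fun r => r.1.1)).imp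
    ((Rec.rk_lt_app (fun r : (ℕ × List A × List A) × List A => r.1.2.1) (fun r => r.2)).and
    (Rec.rk_lt_app (fun r : (ℕ × List A × List A) × List A => r.2) (fun r => r.1.2.2))).not)

include hL in
theorem rec_dm : Rec fun c : Cf A => Dm Lm c := by
  refine ((rec_val.app fun c : Cf A => c.p).and
    (Rec.list_le_nat (fun c : Cf A => c.p) (fun c => c.m))).and (Rec.or ?_ ?_)
  · exact (Rec.nat_zero (fun c : Cf A => c.g)).and
      ((Rec.list_le (fun c : Cf A => c.b) (fun c => c.p)).and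
      ((Rec.list_nil (fun c : Cf A => c.v)).and
      ((Rec.list_nil (fun c : Cf A => c.y)).and (Rec.list_nil (fun c : Cf A => c.z)))))
  · exact (Rec.nat_one (fun c : Cf A => c.g)).and
      ((Rec.nat_zero (fun c : Cf A => c.i)).and
      ((Rec.list_nil (fun c : Cf A => c.b)).and
      ((Rec.list_le_nat (fun c : Cf A => c.v) (fun c => c.m)).and
      ((hL.app fun c : Cf A => c.v).and
      ((hL.app fun c : Cf A => c.y).and (hL.app fun c : Cf A => c.z))))))

include hL hS hs in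
theorem rec_stp : Rec fun q : Cf A × Cf A => Stp Lm ψ q.1 q.2 := by
  have hD := rec_dm hL
  have hZ := rec_zero hL hS hs
  refine (hD.app fun q : Cf A × Cf A => q.1).and ((hD.app fun q : Cf A × Cf A => q.2).and
    (Rec.or ?_ (Rec.or ?_ (Rec.or ?_ (Rec.or ?_ ?_)))))
  · exact (Rec.nat_zero (fun q : Cf A × Cf A => q.1.g)).and
      ((Rec.nat_zero (fun q : Cf A × Cf A => q.2.g)).and
      ((Rec.eq_app (fun q : Cf A × Cf A => q.2.i) (fun q => q.1.i)).and
      ((Rec.eq_app (fun q : Cf A × Cf A => q.2.p) (fun q => q.1.p)).and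
      ((Rec.succ_app (fun q : Cf A × Cf A => q.1.m) (fun q => q.2.m)).and
      (rec_nextB.app fun q : Cf A × Cf A => (q.1.p, q.1.b, q.2.b))))))
  · exact (Rec.nat_zero (fun q : Cf A × Cf A => q.1.g)).and
      ((Rec.nat_zero (fun q : Cf A × Cf A => q.2.g)).and
      ((Rec.succ_app (fun q : Cf A × Cf A => q.2.i) (fun q => q.1.i)).and
      ((rec_lastB.app fun q : Cf A × Cf A => (q.1.p, q.1.b)).and
      ((Rec.succ_app (fun q : Cf A × Cf A => q.1.m) (fun q => q.2.m)).and
      ((Rec.list_nil (fun q : Cf A × Cf A => q.2.b)).and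
      (rec_extP.app fun q : Cf A × Cf A => (q.1.p, q.1.m, q.2.m, q.2.p)))))))
  · exact (Rec.nat_zero (fun q : Cf A × Cf A => q.1.g)).and
      ((Rec.nat_one (fun q : Cf A × Cf A => q.2.g)).and
      ((Rec.nat_zero (fun q : Cf A × Cf A => q.1.i)).and
      ((rec_lastB.app fun q : Cf A × Cf A => (q.1.p, q.1.b)).and
      ((Rec.eq_app (fun q : Cf A × Cf A => q.2.p) (fun q => q.1.p)).and
      ((Rec.eq_app (fun q : Cf A × Cf A => q.2.m) (fun q => q.1.m)).and
      (((rec_firstV hL).app fun q : Cf A × Cf A => (q.1.m, q.2.v)).and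
      ((Rec.eq_app (fun q : Cf A × Cf A => q.2.y) (fun q => q.2.v)).and
      (hZ.app fun q : Cf A × Cf A => q.2.z))))))))
  · exact (Rec.nat_one (fun q : Cf A × Cf A => q.1.g)).and
      ((Rec.nat_one (fun q : Cf A × Cf A => q.2.g)).and
      ((Rec.eq_app (fun q : Cf A × Cf A => q.2.p) (fun q => q.1.p)).and
      ((Rec.eq_app (fun q : Cf A × Cf A => q.2.m) (fun q => q.1.m)).and
      ((Rec.eq_app (fun q : Cf A × Cf A => q.2.v) (fun q => q.1.v)).and
      ((hS.app fun q : Cf A × Cf A => (q.2.y, q.1.y)).and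
      (hS.app fun q : Cf A × Cf A => (q.1.z, q.2.z)))))))
  · exact (Rec.nat_one (fun q : Cf A × Cf A => q.1.g)).and
      ((Rec.nat_one (fun q : Cf A × Cf A => q.2.g)).and
      ((Rec.eq_app (fun q : Cf A × Cf A => q.2.p) (fun q => q.1.p)).and
      ((Rec.eq_app (fun q : Cf A × Cf A => q.2.m) (fun q => q.1.m)).and
      ((hZ.app fun q : Cf A × Cf A => q.1.y).and
      ((Rec.eq_app (fun q : Cf A × Cf A => q.1.z) (fun q => q.1.v)).and
      (((rec_nextV hL).app fun q : Cf A × Cf A => (q.1.m, q.1.v, q.2.v)).and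
      ((Rec.eq_app (fun q : Cf A × Cf A => q.2.y) (fun q => q.2.v)).and
      (hZ.app fun q : Cf A × Cf A => q.2.z))))))))

include hL hS hs in
theorem rec_start : Rec fun c : Cf A => Start (Dm Lm) (Stp Lm ψ) c :=
  (rec_dm hL).and (Rec.all (P := fun (d e : Cf A) => ¬ Stp Lm ψ e d)
    ((rec_stp hL hS hs).app fun q : Cf A × Cf A => (q.2, q.1)).not)

include hL hS hs in
theorem rec_end : Rec fun c : Cf A => End (Dm Lm) (Stp Lm ψ) c :=
  (rec_dm hL).and (Rec.all (P := fun (d e : Cf A) => ¬ Stp Lm ψ d e)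
    ((rec_stp hL hS hs).app fun q : Cf A × Cf A => (q.1, q.2)).not)

include hL hS hs in
theorem rec_nxt : Rec fun q : Cf A × Cf A => Nxt (Dm Lm) (Stp Lm ψ) rk q.1 q.2 := by
  have h := rec_start hL hS hs
  refine (h.app fun q : Cf A × Cf A => q.1).and ((h.app fun q : Cf A × Cf A => q.2).and
    ((Rec.rk_lt_app (fun q : Cf A × Cf A => q.1) (fun q => q.2)).and ?_))
  refine Rec.all (P := fun (q : Cf A × Cf A) (x : Cf A) => Start (Dm Lm) (Stp Lm ψ) x →
    ¬ (rk q.1 < rk x ∧ rk x < rk q.2)) ?_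
  exact (h.app fun r : (Cf A × Cf A) × Cf A => r.2).imp
    ((Rec.rk_lt_app (fun r : (Cf A × Cf A) × Cf A => r.1.1) (fun r => r.2)).and
    (Rec.rk_lt_app (fun r : (Cf A × Cf A) × Cf A => r.2) (fun r => r.1.2))).not

/-- the successor relation with the sign as a number -/
def SgN (Lm : List A → Prop) (ψ : List A → ℕ) (x y : ℕ × Cf A) : Prop :=
  (x.1 = 1 ∧ y.1 = 1 ∧ Stp Lm ψ x.2 y.2) ∨
  (x.1 = 1 ∧ y.1 = 0 ∧ x.2 = y.2 ∧ End (Dm Lm) (Stp Lm ψ) x.2) ∨
  (x.1 = 0 ∧ y.1 = 0 ∧ Stp Lm ψ y.2 x.2) ∨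
  (x.1 = 0 ∧ y.1 = 1 ∧ Nxt (Dm Lm) (Stp Lm ψ) rk x.2 y.2)

/-- the domain with sign -/
def DmN (Lm : List A → Prop) (x : ℕ × Cf A) : Prop := (x.1 = 0 ∨ x.1 = 1) ∧ Dm Lm x.2

include hL in
theorem rec_dmN : Rec fun x : ℕ × Cf A => DmN Lm x :=
  ((Rec.nat_zero (fun x : ℕ × Cf A => x.1)).or (Rec.nat_one (fun x : ℕ × Cf A => x.1))).and
    ((rec_dm hL).app fun x : ℕ × Cf A => x.2)

include hL hS hs in
theorem rec_sgN : Rec fun q : (ℕ × Cf A) × (ℕ × Cf A) => SgN Lm ψ q.1 q.2 := by
  refine Rec.or ?_ (Rec.or ?_ (Rec.or ?_ ?_))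
  · exact (Rec.nat_one (fun q : (ℕ × Cf A) × (ℕ × Cf A) => q.1.1)).and
      ((Rec.nat_one (fun q : (ℕ × Cf A) × (ℕ × Cf A) => q.2.1)).and
      ((rec_stp hL hS hs).app fun q : (ℕ × Cf A) × (ℕ × Cf A) => (q.1.2, q.2.2)))
  · exact (Rec.nat_one (fun q : (ℕ × Cf A) × (ℕ × Cf A) => q.1.1)).and
      ((Rec.nat_zero (fun q : (ℕ × Cf A) × (ℕ × Cf A) => q.2.1)).and
      ((Rec.eq_app (fun q : (ℕ × Cf A) × (ℕ × Cf A) => q.1.2) (fun q => q.2.2)).and
      ((rec_end hL hS hs).app fun q : (ℕ × Cf A) × (ℕ × Cf A) => q.1.2)))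
  · exact (Rec.nat_zero (fun q : (ℕ × Cf A) × (ℕ × Cf A) => q.1.1)).and
      ((Rec.nat_zero (fun q : (ℕ × Cf A) × (ℕ × Cf A) => q.2.1)).and
      ((rec_stp hL hS hs).app fun q : (ℕ × Cf A) × (ℕ × Cf A) => (q.2.2, q.1.2)))
  · exact (Rec.nat_zero (fun q : (ℕ × Cf A) × (ℕ × Cf A) => q.1.1)).and
      ((Rec.nat_one (fun q : (ℕ × Cf A) × (ℕ × Cf A) => q.2.1)).and
      ((rec_nxt hL hS hs).app fun q : (ℕ × Cf A) × (ℕ × Cf A) => (q.1.2, q.2.2)))

end

end Pool.Agent.Lib57.FA
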