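import Mathlib
import Pool.Agent.Lib_helper57.FA.Regular

/-! The presentation with tower compression. -/

namespace Pool.Agent.Lib57.FA

open Function

set_option synthInstance.maxSize 100000

section

variable {A : Type} [Finite A]

/-- the least normal forms -/
def Lmin (P : FAPres A) (u : List A) : Prop :=
  u ∈ P.L ∧ ∀ v, (v ∈ P.L ∧ u ∈ P.L ∧ P.ψ v = P.ψ u) →
    (u.length ≤ v.length ∧ (v.length ≤ u.length → ¬ rk v < rk u))

theorem rec_Lmin (P : FAPres A) : Rec fun u : List A => Lmin P u := by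
  refine (Rec.ofRegular P.regular).and ?_
  refine Rec.all (P := fun (u v : List A) => (v ∈ P.L ∧ u ∈ P.L ∧ P.ψ v = P.ψ u) →
    (u.length ≤ v.length ∧ (v.length ≤ u.length → ¬ rk v < rk u))) ?_
  exact ((Rec.ofSync P.eq_rec).app fun q : List A × List A => (q.2, q.1)).imp
    ((Rec.list_le (fun q : List A × List A => q.1) (fun q => q.2)).and
      ((Rec.list_le (fun q : List A × List A => q.2) (fun q => q.1)).imp
        (Rec.rk_lt_app (fun q : List A × List A => q.2) (fun q => q.1)).not))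

theorem exists_Lmin (P : FAPres A) (v : List A) (hv : v ∈ P.L) :
    ∃ u, Lmin P u ∧ P.ψ u = P.ψ v ∧ u.length ≤ v.length := by
  classical
  have h1 : ∃ k, ∃ u ∈ P.L, P.ψ u = P.ψ v ∧ u.length = k := ⟨_, v, hv, rfl, rfl⟩
  have hspec := Nat.find_spec h1
  have hmin := fun (k : ℕ) (hk : k < Nat.find h1) => Nat.find_min h1 hk
  set K := Nat.find h1
  have h2 : ∃ r, ∃ u ∈ P.L, P.ψ u = P.ψ v ∧ u.length = K ∧ rk u = r := by
    obtain ⟨u, hu, h3, h4⟩ := hspec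
    exact ⟨_, u, hu, h3, h4, rfl⟩
  have hspec2 := Nat.find_spec h2
  have hmin2 := fun (k : ℕ) (hk : k < Nat.find h2) => Nat.find_min h2 hk
  obtain ⟨u, hu, h3, h4, h5⟩ := hspec2
  have h6 : ∀ w ∈ P.L, P.ψ w = P.ψ v → K ≤ w.length := by
    intro w hw hwv
    by_contra hlt
    exact hmin w.length (by omega) ⟨w, hw, hwv, rfl⟩
  refine ⟨u, ⟨hu, ?_⟩, h3, ?_⟩
  · rintro w ⟨hw, _, hwu⟩
    refine ⟨?_, fun hle hlt => ?_⟩
    · rw [h4]
      exact h6 w hw (hwu.trans h3)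
    · have h7 := h6 w hw (hwu.trans h3)
      exact hmin2 (rk w) (by omega) ⟨w, hw, hwu.trans h3, by omega, rfl⟩
  · rw [h4]
    exact h6 v hv rfl

theorem Lmin_surj (P : FAPres A) (n : ℕ) : ∃ u, Lmin P u ∧ P.ψ u = n := by
  obtain ⟨v, hv, hn⟩ := P.surj n
  obtain ⟨u, hu, h1, _⟩ := exists_Lmin P v hv
  exact ⟨u, hu, h1.trans hn⟩

theorem Lmin_inj (P : FAPres A) (u v : List A) (hu : Lmin P u) (hv : Lmin P v)
    (h : P.ψ u = P.ψ v) : u = v := by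
  have h1 := hu.2 v ⟨hv.1, hu.1, h.symm⟩
  have h2 := hv.2 u ⟨hu.1, hv.1, h⟩
  have h3 := h1.2 h2.1
  have h4 := h2.2 h1.1
  exact rk_inj (by omega)

theorem rec_S0 (P : FAPres A) : Rec fun q : List A × List A => S0 (Lmin P) P.ψ q.1 q.2 := by
  refine (((rec_Lmin P).app fun q : List A × List A => q.1).and
    (((rec_Lmin P).app fun q : List A × List A => q.2).and (Rec.ofSync P.succ_rec))).congr
    fun q => ?_
  constructor
  · rintro ⟨h1, h2, h3⟩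
    exact ⟨h1, h2, h3.2.2⟩
  · rintro ⟨h1, h2, h3⟩
    exact ⟨h1, h2, h1.1, h2.1, h3⟩

/-- the column alphabet -/
abbrev Col (A : Type) : Type :=
  Bool × Bool × Bool × Option Bool × Bool × Option Bool × Option A × Option A × Option A

theorem sgN_iff {Lm : List A → Prop} {ψ : List A → ℕ} {x y : ℕ × Cf A} (hx : DmN Lm x)
    (hy : DmN Lm y) : SgN Lm ψ x y ↔
      Sg (Dm Lm) (Stp Lm ψ) rk (x.2, decide (x.1 = 1)) (y.2, decide (y.1 = 1)) := by
  unfold SgN Sg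
  have h1 : ∀ z : ℕ × Cf A, DmN Lm z → (z.1 = 0 ↔ decide (z.1 = 1) = false) := by
    rintro z ⟨h | h, _⟩ <;> simp [h]
  have h2 : ∀ z : ℕ × Cf A, (z.1 = 1 ↔ decide (z.1 = 1) = true) := by
    intro z; simp
  exact or_congr (and_congr (h2 x) (and_congr (h2 y) Iff.rfl))
    (or_congr (and_congr (h2 x) (and_congr (h1 y hy) Iff.rfl))
    (or_congr (and_congr (h1 x hx) (and_congr (h1 y hy) Iff.rfl))
    (and_congr (h1 x hx) (and_congr (h2 y) Iff.rfl))))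

/-- the main theorem -/
theorem main (P₀ : FAPres A) : ∃ P : FAPres (Col A), ∀ n, T n ≤ rate P P₀ n := by
  classical
  have hL := rec_Lmin P₀
  have hS := rec_S0 P₀
  have hs := Lmin_surj P₀
  have hu := Lmin_inj P₀
  obtain ⟨pos, p1, p2, p3, p4⟩ := exists_pos (D := Dm (Lmin P₀)) (St := Stp (Lmin P₀) P₀.ψ)
    (f := (rk : Cf A → ℕ)) (fun d e h => stp_D h) (stp_fn hu) (stp_inj hu)
    (fun d _ => stp_fw d) (fun d _ => stp_bw d) rk_inj (st0_inf rk_inj)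
  let dec : List (Col A) → ℕ × Cf A := invFun (enc (X := ℕ × Cf A))
  have hdec : ∀ x : ℕ × Cf A, dec (enc x) = x := leftInverse_invFun enc_inj
  let sgn : ℕ × Cf A → Cf A × Bool := fun x => (x.2, decide (x.1 = 1))
  let L : Language (Col A) := {u | ∃ x : ℕ × Cf A, u = enc x ∧ DmN (Lmin P₀) x}
  have hLmem : ∀ u, u ∈ L ↔ ∃ x : ℕ × Cf A, u = enc x ∧ DmN (Lmin P₀) x := fun u => Iff.rfl
  have hsgn : ∀ x y : ℕ × Cf A, DmN (Lmin P₀) x → DmN (Lmin P₀) y → sgn x = sgn y → x = y := by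
    intro x y hx hy h
    have h1 : x.2 = y.2 := congrArg Prod.fst h
    have h2 : decide (x.1 = 1) = decide (y.1 = 1) := congrArg Prod.snd h
    apply Prod.ext _ h1
    rcases hx.1 with h3 | h3 <;> rcases hy.1 with h4 | h4 <;> simp [h3, h4] at h2 ⊢
  let ψ : List (Col A) → ℕ := fun u => pos (sgn (dec u))
  have hψ : ∀ x : ℕ × Cf A, ψ (enc x) = pos (sgn x) := by
    intro x
    show pos (sgn (dec (enc x))) = _
    rw [hdec]
  have hdm : ∀ c : Cf A, Dm (Lmin P₀) c → ∀ b : Bool, ∃ x : ℕ × Cf A, DmN (Lmin P₀) x ∧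
      sgn x = (c, b) := by
    intro c hc b
    cases b
    · exact ⟨(0, c), ⟨Or.inl rfl, hc⟩, rfl⟩
    · exact ⟨(1, c), ⟨Or.inr rfl, hc⟩, rfl⟩
  have e1 : SyncRec fun u v => u ∈ L ∧ v ∈ L ∧ ψ u = ψ v := by
    apply Rec.toSync
    have h1 := rec_of_enc2 (X := ℕ × Cf A)
      (R := fun x y => DmN (Lmin P₀) x ∧ DmN (Lmin P₀) y ∧ x = y)
      (((rec_dmN hL).app fun q : (ℕ × Cf A) × (ℕ × Cf A) => q.1).and
        (((rec_dmN hL).app fun q : (ℕ × Cf A) × (ℕ × Cf A) => q.2).and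
        (Rec.eq_app (fun q : (ℕ × Cf A) × (ℕ × Cf A) => q.1) (fun q => q.2))))
    refine h1.congr fun p => ?_
    constructor
    · rintro ⟨x, y, h2, h3, h4, h5, rfl⟩
      exact ⟨⟨x, h2, h4⟩, ⟨x, h3, h5⟩, by rw [h2, h3]⟩
    · rintro ⟨⟨x, h2, h4⟩, ⟨y, h3, h5⟩, h6⟩
      rw [h2, h3, hψ, hψ] at h6
      exact ⟨x, y, h2, h3, h4, h5, hsgn x y h4 h5 (p2 _ _ h4.2 h5.2 h6)⟩
  have e2 : SyncRec fun u v => u ∈ L ∧ v ∈ L ∧ ψ v = ψ u + 1 := by
    apply Rec.toSync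
    have h1 := rec_of_enc2 (X := ℕ × Cf A)
      (R := fun x y => DmN (Lmin P₀) x ∧ DmN (Lmin P₀) y ∧ SgN (Lmin P₀) P₀.ψ x y)
      (((rec_dmN hL).app fun q : (ℕ × Cf A) × (ℕ × Cf A) => q.1).and
        (((rec_dmN hL).app fun q : (ℕ × Cf A) × (ℕ × Cf A) => q.2).and
        (rec_sgN hL hS hs)))
    refine h1.congr fun p => ?_
    constructor
    · rintro ⟨x, y, h2, h3, h4, h5, h6⟩
      refine ⟨⟨x, h2, h4⟩, ⟨y, h3, h5⟩, ?_⟩
      rw [h2, h3, hψ, hψ]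
      exact (p3 _ _ h4.2 h5.2).2 ((sgN_iff h4 h5).1 h6)
    · rintro ⟨⟨x, h2, h4⟩, ⟨y, h3, h5⟩, h6⟩
      rw [h2, h3, hψ, hψ] at h6
      exact ⟨x, y, h2, h3, h4, h5, (sgN_iff h4 h5).2 ((p3 _ _ h4.2 h5.2).1 h6)⟩
  let P : FAPres (Col A) :=
    { L := L
      ψ := ψ
      regular := Rec.toRegular (rec_of_enc (rec_dmN hL))
      surj := by
        intro n
        obtain ⟨⟨c, b⟩, hc, hn⟩ := p1 n
        obtain ⟨x, hx, hxs⟩ := hdm c hc b
        exact ⟨enc x, ⟨x, rfl, hx⟩, by rw [hψ, hxs, hn]⟩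
      eq_rec := e1
      succ_rec := e2 }
  refine ⟨P, fun n => ?_⟩
  -- the short word
  let x : ℕ × Cf A := (0, st0 A n)
  have hx : DmN (Lmin P₀) x := ⟨Or.inl rfl, st0_dm n⟩
  have hlen : (enc x).length = n := by
    rw [enc_length]
    show max 0 (max 0 (max n (max 0 (max 0 (max 0 (max 0 (max 0 0))))))) = n
    simp
  have hval : P.ψ (enc x) = pos (st0 A n, false) := hψ x
  have hT : T n ≤ P₀.minLen (P.ψ (enc x)) := by
    have hne : {k | ∃ v ∈ P₀.L, P₀.ψ v = P.ψ (enc x) ∧ v.length = k}.Nonempty := by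
      obtain ⟨v, hv, h1⟩ := P₀.surj (P.ψ (enc x))
      exact ⟨_, v, hv, h1, rfl⟩
    obtain ⟨v, hv, h1, h2⟩ := Nat.sInf_mem hne
    by_contra hlt
    rw [not_le] at hlt
    obtain ⟨u, hu1, hu2, hu3⟩ := exists_Lmin P₀ v hv
    have h3 : v.length = P₀.minLen (P.ψ (enc x)) := h2
    obtain ⟨J, e, h4, h5⟩ := long_orbit (Lm := Lmin P₀) (ψ := P₀.ψ) hs hu n u hu1 (by omega)
    have h6 := p4 _ _ _ (st0_dm n) h5
    rw [hu2, h1, hval] at h4
    omega
  refine hT.trans (le_csSup ?_ ⟨enc x, ⟨x, rfl, hx⟩, hlen.le, rfl⟩)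
  have hfin : {k | ∃ w ∈ P.L, w.length ≤ n ∧ k = P₀.minLen (P.ψ w)}.Finite := by
    refine ((List.finite_length_le (Col A) n).image fun w => P₀.minLen (P.ψ w)).subset ?_
    rintro k ⟨w, _, hw, rfl⟩
    exact ⟨w, hw, rfl⟩
  exact hfin.bddAbove

end

end Pool.Agent.Lib57.FA
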